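import Mathlib

-- part Pool.Agent.P.MP_e9ee98_al.TwA
section

/-!
A complete valued field over a field with a group action.
-/

namespace Pool.Agent.P.MP_e9ee98_al

open scoped LaurentSeries WithZero

/-- Coefficientwise image of a Laurent series. -/
noncomputable def lsMap {E : Type} [Field E] (f : E →+* E) : E⸨X⸩ →+* E⸨X⸩ where
  toFun x := x.map f
  map_one' := HahnSeries.map_one f.toMonoidWithZeroHom
  map_mul' _ _ := HahnSeries.map_mul f.toNonUnitalRingHom
  map_zero' := by ext; simp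
  map_add' _ _ := by ext; simp

lemma lsMap_coeff {E : Type} [Field E] (f : E →+* E) (x : E⸨X⸩) (n : ℤ) :
    (lsMap f x).coeff n = f (x.coeff n) := rfl

theorem exists_complete (E : Type) [Field E] {Γ : Type} [Group Γ] (α : Γ →* (E →+* E)) :
    ∃ (K : Type) (_ : NontriviallyNormedField K) (_ : IsUltrametricDist K) (_ : CompleteSpace K)
      (ι : E →+* K) (β : Γ →* (K →+* K)) (t : K), t ≠ 0 ∧ ‖t‖ < 1 ∧ (∀ c, ‖ι c‖ ≤ 1) ∧
      (∀ γ, β γ t = t) ∧ (∀ γ c, β γ (ι c) = ι (α γ c)) ∧ ∀ γ x, ‖β γ x‖ = ‖x‖ := by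
  have hd : (Valued.v : Valuation E⸨X⸩ ℤᵐ⁰).IsRankOneDiscrete := by
    rw [LaurentSeries.valuation_def]; infer_instance
  let : (Valued.v : Valuation E⸨X⸩ ℤᵐ⁰).RankOne :=
    Valuation.IsRankOneDiscrete.rankOne _ (e := 2) one_lt_two
  let := Valued.toNontriviallyNormedField E⸨X⸩ ℤᵐ⁰
  let β : Γ →* (E⸨X⸩ →+* E⸨X⸩) :=
    { toFun γ := lsMap (α γ)
      map_one' := by ext x n; simp [lsMap_coeff]
      map_mul' γ δ := by ext x n; simp [lsMap_coeff] }
  have hle : ∀ (f : E →+* E) (x : E⸨X⸩), Valued.v (lsMap f x) ≤ Valued.v x := by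
    intro f x
    rcases eq_or_ne x 0 with rfl | hx
    · simp
    · have h0 : Valued.v x ≠ 0 := by simpa using hx
      rw [LaurentSeries.valuation_le_iff_coeff_lt_log_eq_zero _ h0]
      intro n hn
      rw [lsMap_coeff, (LaurentSeries.valuation_le_iff_coeff_lt_log_eq_zero _ h0).1 le_rfl n hn,
        map_zero]
  refine ⟨E⸨X⸩, inferInstance, inferInstance, inferInstance, HahnSeries.C, β,
    HahnSeries.single 1 1, by simp, ?_, fun c => ?_, fun γ => ?_, fun γ c => ?_, fun γ x => ?_⟩
  · rw [Valued.toNormedField.norm_lt_one_iff, LaurentSeries.valuation_single_zpow, ← WithZero.exp_zero,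
      WithZero.exp_lt_exp]
    norm_num
  · rw [Valued.toNormedField.norm_le_one_iff, ← WithZero.exp_zero, ← neg_zero,
      LaurentSeries.valuation_le_iff_coeff_lt_eq_zero]
    intro n hn
    simp [hn.ne]
  · ext n
    simp [β, lsMap_coeff, HahnSeries.coeff_single, apply_ite]
  · exact HahnSeries.map_C c (α γ)
  · refine le_antisymm (Valued.toNormedField.norm_le_iff.2 (hle _ _)) ?_
    have e : β γ⁻¹ (β γ x) = x := by
      rw [← RingHom.comp_apply, ← RingHom.mul_def, ← map_mul, inv_mul_cancel, map_one]; rfl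
    conv_lhs => rw [← e]
    exact Valued.toNormedField.norm_le_iff.2 (hle _ _)

end Pool.Agent.P.MP_e9ee98_al
end

-- part Pool.Agent.P.MP_e9ee98_al.TwB
section

/-!
The dimension of a generic deformation of the algebra `K[X] / (X i ^ d)`.
-/

namespace Pool.Agent.P.MP_e9ee98_al

set_option linter.unusedSectionVars false

open MvPolynomial
open scoped Pointwise

variable {σ : Type} [Fintype σ] {d : ℕ}

section
variable {R : Type} [CommRing R]

/-- Replace `X i ^ d` by `g i` in a monomial. -/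
noncomputable def thm (d : ℕ) (g : σ → MvPolynomial σ R) (c : σ →₀ ℕ) : MvPolynomial σ R :=
  ∏ i, g i ^ (c i / d) * X i ^ (c i % d)

/-- Replace `X i ^ d` by `g i` in every monomial. -/
noncomputable def th (d : ℕ) (g : σ → MvPolynomial σ R) :
    MvPolynomial σ R →ₗ[R] MvPolynomial σ R := (basisMonomials σ R).constr R (thm d g)

lemma th_monomial (g : σ → MvPolynomial σ R) (c : σ →₀ ℕ) (r : R) :
    th d g (monomial c r) = r • thm d g c := by
  have : monomial c r = r • basisMonomials σ R c := by simp [smul_monomial]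
  rw [this, map_smul, th, Module.Basis.constr_basis]

lemma th_mul (hd : 0 < d) (g : σ → MvPolynomial σ R) (i : σ) (f : MvPolynomial σ R) :
    th d g (X i ^ d * f) = g i * th d g f := by
  classical
  induction f using MvPolynomial.induction_on' with
  | add p q hp hq => rw [mul_add, map_add, map_add, mul_add, hp, hq]
  | monomial c r =>
    rw [X_pow_eq_monomial, monomial_mul, one_mul, th_monomial, th_monomial, mul_smul_comm]
    congr 1
    have e : g i = ∏ j, if j = i then g i else 1 := by simp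
    rw [thm, thm, e, ← Finset.prod_mul_distrib]
    refine Finset.prod_congr rfl fun j _ => ?_
    rw [Finsupp.add_apply, Finsupp.single_apply]
    by_cases h : j = i
    · subst h
      rw [if_pos rfl, if_pos rfl, Nat.add_div_left _ hd, Nat.add_mod_left, pow_succ', mul_assoc]
    · rw [if_neg h, if_neg (Ne.symm h), zero_add, one_mul]

lemma thm_deg {g : σ → MvPolynomial σ R} (hg : ∀ i, (g i).totalDegree ≤ d) (c : σ →₀ ℕ) :
    (thm d g c).totalDegree ≤ c.sum fun _ e => e := by
  rcases subsingleton_or_nontrivial R with h | h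
  · rw [Subsingleton.elim (thm d g c) 0]; simp
  rw [Finsupp.sum_fintype _ _ fun _ => rfl]
  refine (totalDegree_finsetProd _ _).trans (Finset.sum_le_sum fun i _ => ?_)
  refine (totalDegree_mul _ _).trans ?_
  rw [totalDegree_X_pow]
  conv_rhs => rw [← Nat.div_add_mod' (c i) d]
  exact Nat.add_le_add_right ((totalDegree_pow _ _).trans (Nat.mul_le_mul_left _ (hg i))) _

lemma mem_of_monomials {n : ℕ} {S : Type} [CommRing S] [Algebra S R]
    (P : Submodule S (MvPolynomial σ R)) {f : MvPolynomial σ R} (hf : f.totalDegree ≤ n)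
    (h : ∀ c : σ →₀ ℕ, (c.sum fun _ e => e) ≤ n → monomial c (f.coeff c) ∈ P) : f ∈ P := by
  rw [f.as_sum]
  exact P.sum_mem fun c hc => h c ((le_totalDegree hc).trans hf)

lemma th_mem {g : σ → MvPolynomial σ R} (hg : ∀ i, (g i).totalDegree ≤ d) {n : ℕ} :
    ∀ f ∈ restrictTotalDegree σ R n, th d g f ∈ restrictTotalDegree σ R n := fun f hf =>
  mem_of_monomials ((restrictTotalDegree σ R n).comap (th d g))
    ((mem_restrictTotalDegree _ _ _).1 hf) fun c hc => by
      rw [Submodule.mem_comap, th_monomial]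
      exact Submodule.smul_mem _ _ ((mem_restrictTotalDegree _ _ _).2 ((thm_deg hg c).trans hc))

lemma monomial_mem {n : ℕ} {c : σ →₀ ℕ} (hc : (c.sum fun _ e => e) ≤ n) (r : R) :
    monomial c r ∈ restrictTotalDegree σ R n :=
  (mem_restrictTotalDegree _ _ _).2 ((totalDegree_monomial_le _ _).trans hc)

lemma deg_def (a : R) {G : σ → MvPolynomial σ R} (hG : ∀ i, (G i).totalDegree ≤ d) (i : σ) :
    (X i ^ d + C a * G i).totalDegree ≤ d := by
  refine (totalDegree_add _ _).trans (max_le ?_ ?_)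
  · rw [X_pow_eq_monomial]
    exact (totalDegree_monomial_le _ _).trans (by simp)
  · exact (totalDegree_mul _ _).trans (by simpa using hG i)

lemma th_nakayama (a : R) {G : σ → MvPolynomial σ R} (hG : ∀ i, (G i).totalDegree ≤ d) (n : ℕ) :
    ∃ r : R, r - 1 ∈ Ideal.span {a} ∧ r • restrictTotalDegree σ R n ≤
      (restrictTotalDegree σ R n).map (th d fun i => X i ^ d + C a * G i) := by
  set g : σ → MvPolynomial σ R := fun i => X i ^ d + C a * G i with hg
  refine Submodule.exists_sub_one_mem_and_smul_le_of_fg_of_le_sup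
    (N' := restrictTotalDegree σ R n) (Module.Finite.iff_fg.1 inferInstance) le_rfl fun f hf => ?_
  refine mem_of_monomials _ ((mem_restrictTotalDegree _ _ _).1 hf) fun c hc => ?_
  have e : monomial c (f.coeff c) = th d g (monomial c (f.coeff c)) -
      f.coeff c • (thm d g c - monomial c 1) := by
    rw [th_monomial, smul_sub, smul_monomial, smul_eq_mul, mul_one, sub_sub_cancel]
  rw [e]
  refine Submodule.sub_mem _ (Submodule.mem_sup_left ⟨_, monomial_mem hc _, rfl⟩)
    (Submodule.mem_sup_right (Submodule.smul_mem _ _ ?_))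
  obtain ⟨h, hh⟩ : C a ∣ thm d g c - monomial c 1 := by
    rw [← Ideal.mem_span_singleton, ← Ideal.Quotient.eq, monomial_eq, C_1, one_mul,
      Finsupp.prod_fintype _ _ fun _ => pow_zero _, thm, map_prod, map_prod]
    refine Finset.prod_congr rfl fun i _ => ?_
    have h0 : Ideal.Quotient.mk (Ideal.span {C a}) (C a * G i) = 0 :=
      Ideal.Quotient.eq_zero_iff_mem.2 (Ideal.mem_span_singleton.2 (dvd_mul_right _ _))
    rw [map_mul, map_pow, hg, map_add, h0, add_zero, ← map_pow, ← map_mul, ← pow_mul, ← pow_add,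
      Nat.div_add_mod]
  refine mem_of_monomials (n := n) _ ((mem_restrictTotalDegree _ _ _).1 (Submodule.sub_mem _
    ((mem_restrictTotalDegree _ _ _).2 ((thm_deg (deg_def a hG) c).trans hc))
    (monomial_mem hc _))) fun c' hc' => ?_
  rw [hh, coeff_C_mul, ← smul_eq_mul, ← smul_monomial]
  exact Submodule.smul_mem_smul (Ideal.mem_span_singleton_self a) (monomial_mem hc' _)

lemma map_th {S : Type} [CommRing S] (φ : R →+* S) (g : σ → MvPolynomial σ R)
    (f : MvPolynomial σ R) : map φ (th d g f) = th d (fun i => map φ (g i)) (map φ f) := by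
  induction f using MvPolynomial.induction_on' with
  | add p q hp hq => simp only [map_add, hp, hq]
  | monomial c r =>
    rw [map_monomial, th_monomial, th_monomial, smul_eq_C_mul, smul_eq_C_mul, map_mul, map_C]
    simp [thm]

end

variable {K O : Type} [Field K] [CommRing O]

lemma th_bijective (φ : O →+* K) (a : O) (ha : ∀ r : O, r - 1 ∈ Ideal.span {a} → φ r ≠ 0)
    {G : σ → MvPolynomial σ O} (hG : ∀ i, (G i).totalDegree ≤ d) :
    Function.Bijective (th d fun i => map φ (X i ^ d + C a * G i)) := by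
  set g : σ → MvPolynomial σ K := fun i => map φ (X i ^ d + C a * G i) with hg
  have hdeg : ∀ f : MvPolynomial σ O, (map φ f).totalDegree ≤ f.totalDegree := fun f =>
    Finset.sup_mono (support_map_subset φ f)
  have hgd : ∀ i, (g i).totalDegree ≤ d := fun i => (hdeg _).trans (deg_def a hG i)
  have hs : ∀ n, ∀ f ∈ restrictTotalDegree σ K n,
      f ∈ (restrictTotalDegree σ K n).map (th d g) := by
    intro n f hf
    obtain ⟨r, hr, h⟩ := th_nakayama a hG n
    refine mem_of_monomials _ ((mem_restrictTotalDegree _ _ _).1 hf) fun c hc => ?_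
    obtain ⟨y, hy, e⟩ := h (Submodule.smul_mem_pointwise_smul _ r _ (monomial_mem hc 1))
    have e2 := congrArg (map φ) e
    rw [map_th, smul_monomial, map_monomial, smul_eq_mul, mul_one] at e2
    refine ⟨(f.coeff c / φ r) • map φ y, Submodule.smul_mem _ _ ((mem_restrictTotalDegree _ _ _).2
      ((hdeg y).trans ((mem_restrictTotalDegree _ _ _).1 hy))), ?_⟩
    rw [map_smul, e2, smul_monomial, smul_eq_mul, div_mul_cancel₀ _ (ha r hr)]
  refine ⟨(injective_iff_map_eq_zero _).2 fun f hf => ?_, fun f => ?_⟩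
  · have h1 : Function.Surjective ((th d g).restrict (th_mem hgd (n := f.totalDegree))) := by
      rintro ⟨y, hy⟩
      obtain ⟨z, hz, e⟩ := hs _ y hy
      exact ⟨⟨z, hz⟩, Subtype.ext e⟩
    have h2 := LinearMap.injective_iff_surjective.2 h1
    exact congrArg Subtype.val ((injective_iff_map_eq_zero _).1 h2
      ⟨f, (mem_restrictTotalDegree _ _ _).2 le_rfl⟩ (Subtype.ext hf))
  · obtain ⟨z, -, e⟩ := hs _ f ((mem_restrictTotalDegree _ _ _).2 le_rfl)
    exact ⟨z, e⟩

lemma finrank_of_bijective (hd : 0 < d) {g : σ → MvPolynomial σ K}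
    (hb : Function.Bijective (th d g)) :
    Module.finrank K (MvPolynomial σ K ⧸ Ideal.span (Set.range g)) = d ^ Fintype.card σ := by
  classical
  let ex : (σ → Fin d) → σ →₀ ℕ := fun a => Finsupp.equivFunOnFinite.symm fun i => (a i : ℕ)
  have hex : Function.Injective ex := fun a b h => funext fun i =>
    Fin.ext (DFunLike.congr_fun h i)
  let P : MvPolynomial σ K →ₗ[K] (σ → Fin d) → K := LinearMap.pi fun a => lcoeff K (ex a)
  have hP : Function.Surjective P := fun v => ⟨∑ a, monomial (ex a) (v a), funext fun b => by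
    simp [P, coeff_monomial, hex.eq_iff]⟩
  have hk : ∀ f, P f = 0 ↔ f ∈ Ideal.span (Set.range fun i : σ => (X i ^ d : MvPolynomial σ K)) := by
    intro f
    have e : (Set.range fun i : σ => (X i ^ d : MvPolynomial σ K)) =
        (fun s => monomial s (1 : K)) '' Set.range fun i : σ => Finsupp.single i d := by
      rw [← Set.range_comp]
      exact congrArg Set.range (funext fun i => X_pow_eq_monomial)
    rw [e, mem_ideal_span_monomial_image]
    constructor
    · intro h c hc
      by_contra h1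
      push Not at h1
      have h2 : ∀ i, c i < d := fun i => by
        have := h1 _ ⟨i, rfl⟩
        rwa [Finsupp.single_le_iff, not_le] at this
      have h3 : ex (fun i => ⟨c i, h2 i⟩) = c := Finsupp.ext fun _ => rfl
      have h4 := congrFun h fun i => ⟨c i, h2 i⟩
      exact mem_support_iff.1 hc (by simpa [P, h3] using h4)
    · intro h
      funext a
      by_contra h1
      obtain ⟨_, ⟨i, rfl⟩, h2⟩ := h (ex a) (mem_support_iff.2 h1)
      exact absurd (Finsupp.single_le_iff.1 h2) (not_le.2 (a i).2)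
  let T := LinearEquiv.ofBijective _ hb
  have hker : LinearMap.ker (P ∘ₗ T.symm.toLinearMap) =
      (Ideal.span (Set.range g)).restrictScalars K := by
    ext f
    obtain ⟨f, rfl⟩ := T.surjective f
    rw [LinearMap.mem_ker, LinearMap.comp_apply, LinearEquiv.coe_coe, T.symm_apply_apply, hk,
      Submodule.restrictScalars_mem, Ideal.mem_span_range_iff_exists_fun,
      Ideal.mem_span_range_iff_exists_fun]
    have e : ∀ c : σ → MvPolynomial σ K, T (∑ i, c i * X i ^ d) = ∑ i, T (c i) * g i := fun c => by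
      rw [map_sum]
      exact Finset.sum_congr rfl fun i _ => by
        rw [mul_comm, mul_comm _ (g i)]; exact th_mul hd g i _
    constructor
    · rintro ⟨c, rfl⟩
      exact ⟨_, (e c).symm⟩
    · rintro ⟨c, h⟩
      refine ⟨fun i => T.symm (c i), T.injective ?_⟩
      rw [e, ← h]
      simp
  have h1 := (LinearMap.quotKerEquivOfSurjective (P ∘ₗ T.symm.toLinearMap)
    (hP.comp T.symm.surjective)).finrank_eq
  rw [hker, (Submodule.Quotient.restrictScalarsEquiv K (Ideal.span (Set.range g))).finrank_eq] at h1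
  simpa using h1

end Pool.Agent.P.MP_e9ee98_al
end

-- part Pool.Agent.P.MP_e9ee98_al.TwC
section

/-!
Twisted permutation actions on polynomial rings, and stable maximal ideals of finite algebras.
-/

namespace Pool.Agent.P.MP_e9ee98_al

open MvPolynomial

variable {Γ : Type} [Group Γ]

/-- Permute the variables by left multiplication and act on the coefficients. -/
noncomputable def tw {R : Type} [CommRing R] (α : Γ →* (R →+* R)) :
    Γ →* (MvPolynomial Γ R →+* MvPolynomial Γ R) where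
  toFun γ := eval₂Hom (C.comp (α γ)) fun δ => X (γ * δ)
  map_one' := by
    refine ringHom_ext (fun c => ?_) fun δ => ?_ <;> simp
  map_mul' γ δ := by
    refine ringHom_ext (fun c => ?_) fun δ => ?_ <;> simp [mul_assoc]

@[simp] lemma tw_C {R : Type} [CommRing R] (α : Γ →* (R →+* R)) (γ : Γ) (c : R) :
    tw α γ (C c) = C (α γ c) := by simp [tw]

@[simp] lemma tw_X {R : Type} [CommRing R] (α : Γ →* (R →+* R)) (γ δ : Γ) :
    tw α γ (X δ) = X (γ * δ) := by simp [tw]

lemma act_mul {R : Type} [CommRing R] (α : Γ →* (R →+* R)) (γ δ : Γ) (x : R) :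
    α γ (α δ x) = α (γ * δ) x := by rw [map_mul]; rfl

lemma act_one {R : Type} [CommRing R] (α : Γ →* (R →+* R)) (x : R) : α 1 x = x := by
  rw [map_one]; rfl

lemma act_inj {R : Type} [CommRing R] (α : Γ →* (R →+* R)) (γ : Γ) :
    Function.Injective (α γ) := fun x y h => by
  rw [← act_one α x, ← act_one α y, ← inv_mul_cancel γ, ← act_mul, ← act_mul, h]

/-- The automorphism given by one group element. -/
def actEquiv {R : Type} [CommRing R] (α : Γ →* (R →+* R)) (γ : Γ) : R ≃+* R :=
  RingEquiv.ofRingHom (α γ) (α γ⁻¹) (by ext x; simp [act_mul]) (by ext x; simp [act_mul])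

lemma tw_map {R S : Type} [CommRing R] [CommRing S] {α : Γ →* (R →+* R)} {β : Γ →* (S →+* S)}
    {ι : R →+* S} (h : ∀ γ c, β γ (ι c) = ι (α γ c)) (γ : Γ) (f : MvPolynomial Γ R) :
    tw β γ (map ι f) = map ι (tw α γ f) := by
  have : (tw β γ).comp (map ι) = (map ι).comp (tw α γ) :=
    ringHom_ext (fun c => by simp [h]) fun δ => by simp
  exact RingHom.congr_fun this f

lemma tw_deg {R : Type} [CommRing R] (α : Γ →* (R →+* R)) (γ : Γ) (f : MvPolynomial Γ R) :
    (tw α γ f).totalDegree ≤ f.totalDegree := by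
  have : tw α γ = (rename (γ * ·) : MvPolynomial Γ R →ₐ[R] _).toRingHom.comp (map (α γ)) :=
    ringHom_ext (fun c => by simp) fun δ => by simp
  rw [this]
  exact (totalDegree_rename_le _ _).trans (Finset.sup_mono (support_map_subset _ f))

/-- The action induced on the quotient by a stable ideal. -/
def quotAct {R : Type} [CommRing R] (α : Γ →* (R →+* R)) (I : Ideal R)
    (h : ∀ γ, ∀ x ∈ I, α γ x ∈ I) : Γ →* (R ⧸ I →+* R ⧸ I) where
  toFun γ := Ideal.quotientMap I (α γ) (h γ)
  map_one' := Ideal.Quotient.ringHom_ext (by ext x; simp)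
  map_mul' γ δ := Ideal.Quotient.ringHom_ext (RingHom.ext fun x =>
    congrArg (Ideal.Quotient.mk I) (act_mul α γ δ x).symm)

lemma quotAct_mk {R : Type} [CommRing R] (α : Γ →* (R →+* R)) (I : Ideal R)
    (h : ∀ γ, ∀ x ∈ I, α γ x ∈ I) (γ : Γ) (x : R) :
    quotAct α I h γ (Ideal.Quotient.mk I x) = Ideal.Quotient.mk I (α γ x) := rfl

theorem exists_fixed_max {K B : Type} [Field K] [CommRing B] [Algebra K B] {q : ℕ}
    [Fact q.Prime] (hΓ : IsPGroup q Γ) (β : Γ →* (K →+* K)) (τ : Γ →* (B →+* B))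
    (h : ∀ γ c, τ γ (algebraMap K B c) = algebraMap K B (β γ c))
    (hq : ¬ q ∣ Module.finrank K B) :
    ∃ m : Ideal B, m.IsMaximal ∧ ∀ γ, ∀ x ∈ m, τ γ x ∈ m := by
  classical
  have : Module.Finite K B :=
    Module.finite_of_finrank_pos (Nat.pos_of_ne_zero fun h0 => hq (h0 ▸ dvd_zero q))
  have : IsArtinianRing B := IsArtinianRing.of_finite K B
  have := Fintype.ofFinite (MaximalSpectrum B)
  obtain ⟨N, hN⟩ := IsArtinianRing.isNilpotent_nilradical (R := B)
  let w : MaximalSpectrum B → ℕ := fun m => Module.finrank K (B ⧸ m.asIdeal ^ N)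
  have hsum : Module.finrank K B = ∑ m, w m := by
    have e := ((AlgEquiv.quotientBot B B).symm.trans ((Ideal.quotientEquivAlgOfEq B hN.symm).trans
      (IsArtinianRing.quotNilradicalPowEquivPi B N))).toLinearEquiv.restrictScalars K
    rw [e.finrank_eq, Module.finrank_pi_fintype]
  let a : Γ → MaximalSpectrum B → MaximalSpectrum B := fun γ m =>
    ⟨m.asIdeal.comap (τ γ⁻¹), have := m.isMaximal
      Ideal.comap_isMaximal_of_surjective _ (actEquiv τ γ⁻¹).surjective⟩
  have hw : ∀ γ m, w (a γ m) = w m := fun γ m => by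
    refine Algebra.finrank_eq_of_equiv_equiv (actEquiv β γ⁻¹)
      (Ideal.quotientEquiv _ _ (actEquiv τ γ⁻¹) ?_) ?_
    · rw [Ideal.map_pow]
      congr 1
      exact (Ideal.map_comap_of_surjective (τ γ⁻¹) (actEquiv τ γ⁻¹).surjective _).symm
    · ext c
      exact congrArg (Ideal.Quotient.mk _) (h γ⁻¹ c).symm
  obtain ⟨v, hv⟩ : ∃ v, ¬ q ∣ Nat.card {m // w m = v} := by
    by_contra hc
    push Not at hc
    apply hq
    rw [hsum, ← Finset.sum_fiberwise_of_maps_to (t := Finset.univ.image w) (g := w)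
      fun m hm => Finset.mem_image_of_mem _ hm]
    refine Finset.dvd_sum fun v _ => ?_
    rw [Finset.sum_congr rfl fun m hm => (Finset.mem_filter.1 hm).2, Finset.sum_const, smul_eq_mul]
    have := hc v
    rw [Nat.card_eq_fintype_card, Fintype.card_subtype] at this
    exact this.mul_right _
  let : MulAction Γ {m // w m = v} :=
    { smul γ m := ⟨a γ m.1, (hw γ m.1).trans m.2⟩
      one_smul m := Subtype.ext (MaximalSpectrum.ext (Ideal.ext fun x => by
        change τ 1⁻¹ x ∈ m.1.asIdeal ↔ _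
        rw [inv_one, act_one]))
      mul_smul γ δ m := Subtype.ext (MaximalSpectrum.ext (Ideal.ext fun x => by
        change τ (γ * δ)⁻¹ x ∈ m.1.asIdeal ↔ τ δ⁻¹ (τ γ⁻¹ x) ∈ m.1.asIdeal
        rw [act_mul, mul_inv_rev])) }
  obtain ⟨m, hm⟩ := hΓ.nonempty_fixed_point_of_prime_not_dvd_card _ hv
  refine ⟨m.1.asIdeal, m.1.isMaximal, fun γ x hx => ?_⟩
  have e : m.1.asIdeal.comap (τ γ⁻¹⁻¹) = m.1.asIdeal := congrArg (fun z => z.1.asIdeal) (hm γ⁻¹)
  rw [← e, Ideal.mem_comap, inv_inv] at hx
  exact hx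

end Pool.Agent.P.MP_e9ee98_al
end

-- part Pool.Agent.P.MP_e9ee98_al.TwD
section

/-!
The conjugates of a polynomial with a monomial top part generate a proper ideal.
-/

namespace Pool.Agent.P.MP_e9ee98_al

open MvPolynomial

lemma norm_coef {E κ : Type} [Field E] [NormedField κ] {j : E →+* κ} (hj : ∀ c, ‖j c‖ ≤ 1) {c : E}
    (hc : c ≠ 0) : ‖j c‖ = 1 := by
  refine le_antisymm (hj c) ?_
  have h := hj c⁻¹
  rwa [map_inv₀, norm_inv, inv_le_one₀ (norm_pos_iff.2 ((map_ne_zero j).2 hc))] at h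

lemma eval_ne_zero {E K : Type} [Field E] [NormedField K] [IsUltrametricDist K] {ι : E →+* K}
    (hι : ∀ c, ‖ι c‖ ≤ 1) {u : K} (hu : 1 < ‖u‖) (r : Polynomial E)
    (hr : r - 1 ∈ Ideal.span {(Polynomial.X : Polynomial E)}) :
    Polynomial.eval₂RingHom ι u r ≠ 0 := by
  rcases lt_or_ge 0 r.degree with h | h
  · have : 1 < ‖Polynomial.eval₂RingHom ι u r‖ := by
      refine Polynomial.degree_pos_induction_on
        (P := fun r => 1 < ‖Polynomial.eval₂RingHom ι u r‖) r h ?_ ?_ ?_
      · intro a ha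
        simpa [norm_coef hι ha] using hu
      · intro p _ hp
        simpa using one_lt_mul_of_lt_of_le (by simpa using hp) hu.le
      · intro p a _ hp
        have h1 : ‖Polynomial.eval₂RingHom ι u (Polynomial.C a)‖ ≤ 1 := by simpa using hι a
        rw [map_add, IsUltrametricDist.norm_add_eq_max_of_norm_ne_norm (h1.trans_lt hp).ne']
        exact lt_max_of_lt_left hp
    intro h0
    rw [h0, norm_zero] at this
    exact absurd this (by norm_num)
  · rw [Ideal.mem_span_singleton, Polynomial.X_dvd_iff, Polynomial.coeff_sub,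
      Polynomial.coeff_one_zero, sub_eq_zero] at hr
    rw [Polynomial.eq_C_of_degree_le_zero h, hr]
    simp

section
variable {E κ σ : Type} [Field E] [NormedField κ] [IsUltrametricDist κ]

omit [IsUltrametricDist κ] in
lemma norm_monomial (ψ : MvPolynomial σ E →+* κ) {a : ℝ} (ha : ∀ i, ‖ψ (X i)‖ = a)
    (e : σ →₀ ℕ) (c : E) : ‖ψ (monomial e c)‖ = ‖ψ (C c)‖ * a ^ e.sum fun _ n => n := by
  rw [monomial_eq, map_mul, norm_mul, Finsupp.prod, map_prod, norm_prod, Finsupp.sum,
    ← Finset.prod_pow_eq_pow_sum]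
  simp [ha]

lemma norm_poly_le (ψ : MvPolynomial σ E →+* κ) (hc : ∀ c, ‖ψ (C c)‖ ≤ 1) {a b : ℝ}
    (ha : ∀ i, ‖ψ (X i)‖ = a) (ha0 : 0 ≤ a) (hab : a ≤ b) (hb : 1 ≤ b) (f : MvPolynomial σ E) :
    ‖ψ f‖ ≤ b ^ f.totalDegree := by
  conv_lhs => rw [f.as_sum, map_sum]
  refine IsUltrametricDist.norm_sum_le_of_forall_le_of_nonneg (by positivity) fun e he => ?_
  rw [norm_monomial ψ ha]
  refine (mul_le_of_le_one_left (by positivity) (hc _)).trans ?_
  exact (pow_le_pow_left₀ ha0 hab _).trans (pow_le_pow_right₀ hb (le_totalDegree he))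

lemma span_ne_top_of_point [Fintype σ] (ψ : MvPolynomial σ E →+* κ) (hc : ∀ c, ‖ψ (C c)‖ ≤ 1)
    {a : ℝ} (ha : ∀ i, ‖ψ (X i)‖ = a) {d : ℕ} {t : ℝ} (ht0 : 0 ≤ t) (ht : t < 1)
    (F : σ → MvPolynomial σ E) (hF : ∀ i, ‖ψ (F i)‖ = t * a ^ d) (i : σ) {e : σ →₀ ℕ} {c : E}
    (hc0 : c ≠ 0) (he : (e.sum fun _ n => n) = d) (hd : (F i - monomial e c).totalDegree < d) :
    Ideal.span (Set.range F) ≠ ⊤ := by
  have ha0 : 0 ≤ a := ha i ▸ norm_nonneg _
  rcases le_or_gt a 1 with h | h
  · rw [Ne, Ideal.eq_top_iff_one, Ideal.mem_span_range_iff_exists_fun]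
    rintro ⟨g, hg⟩
    have : ‖ψ 1‖ ≤ t := by
      rw [← hg, map_sum]
      refine IsUltrametricDist.norm_sum_le_of_forall_le_of_nonneg ht0 fun j _ => ?_
      rw [map_mul, norm_mul, hF]
      have h1 := norm_poly_le ψ hc ha ha0 h le_rfl (g j)
      rw [one_pow] at h1
      exact (mul_le_of_le_one_left (by positivity) h1).trans
        (mul_le_of_le_one_right ht0 (pow_le_one₀ ha0 h))
    rw [map_one, norm_one] at this
    exact absurd ht this.not_gt
  · exfalso
    have h1 : ‖ψ (monomial e c)‖ = a ^ d := by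
      rw [norm_monomial ψ ha, he]
      exact (congrArg (· * a ^ d) (norm_coef (j := ψ.comp C) hc hc0)).trans (one_mul _)
    have h2 : ‖ψ (F i - monomial e c)‖ < a ^ d :=
      (norm_poly_le ψ hc ha ha0 le_rfl h.le _).trans_lt (pow_lt_pow_right₀ h hd)
    have h3 : ‖ψ (F i)‖ < a ^ d := by
      rw [hF]; exact mul_lt_of_lt_one_left (by positivity) ht
    have h4 := IsUltrametricDist.norm_add_le_max (ψ (F i)) (-ψ (F i - monomial e c))
    rw [← map_neg, ← map_add, neg_sub, add_sub_cancel, h1, map_sub, ← neg_sub, norm_neg,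
      ← map_sub] at h4
    exact absurd h4 (max_lt h3 h2).not_ge

end

theorem key_lemma {E Γ : Type} [Field E] [Group Γ] [Finite Γ] {q : ℕ} [Fact q.Prime]
    (hΓ : IsPGroup q Γ) (α : Γ →* (E →+* E)) {d : ℕ} (hd : ¬ q ∣ d) (F : MvPolynomial Γ E)
    {e : Γ →₀ ℕ} {c : E} (hc : c ≠ 0) (he : (e.sum fun _ n => n) = d)
    (hF : (F - monomial e c).totalDegree < d) :
    Ideal.span (Set.range fun γ => tw α γ F) ≠ ⊤ := by
  have := Fintype.ofFinite Γ
  obtain ⟨K, _, _, _, ι, β, t, ht0, ht, hι, hβt, hβι, hβ⟩ := exists_complete E α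
  have hd0 : 0 < d := Nat.pos_of_ne_zero fun h => hd (h ▸ dvd_zero q)
  have hFd : F.totalDegree ≤ d := by
    rw [← sub_add_cancel F (monomial e c)]
    exact (totalDegree_add _ _).trans (max_le hF.le ((totalDegree_monomial_le _ _).trans he.le))
  let φ := Polynomial.eval₂RingHom ι t⁻¹
  have hb := th_bijective (d := d) φ Polynomial.X
    (eval_ne_zero hι (by rw [norm_inv]; exact (one_lt_inv₀ (norm_pos_iff.2 ht0)).2 ht))
    (G := fun γ => map Polynomial.C (tw α γ F))
    fun γ => (Finset.sup_mono (support_map_subset _ _)).trans ((tw_deg α γ F).trans hFd)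
  let g : Γ → MvPolynomial Γ K := fun γ => X γ ^ d + C t⁻¹ * map ι (tw α γ F)
  have hg : (fun γ => map φ (X γ ^ d + C Polynomial.X * map Polynomial.C (tw α γ F))) = g := by
    funext γ
    have : φ.comp Polynomial.C = ι := by ext c; simp [φ]
    simp only [map_add, map_pow, map_mul, map_X, map_C, map_map, this, g]
    simp [φ]
  rw [hg] at hb
  let I := Ideal.span (Set.range g)
  have hI : ∀ γ, ∀ x ∈ I, tw β γ x ∈ I := fun γ => by
    change I ≤ I.comap (tw β γ)
    refine Ideal.span_le.2 ?_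
    rintro _ ⟨δ, rfl⟩
    refine Ideal.subset_span ⟨γ * δ, ?_⟩
    simp [g, tw_map hβι, hβt]
  obtain ⟨m, hm, hm'⟩ := exists_fixed_max hΓ β (quotAct (tw β) I hI)
    (fun γ c => congrArg (Ideal.Quotient.mk I) (tw_C β γ c)) (by
      rw [finrank_of_bijective hd0 hb]
      exact fun h => hd ((Fact.out : q.Prime).dvd_of_dvd_pow h))
  have : Module.Finite K (MvPolynomial Γ K ⧸ I) := Module.finite_of_finrank_pos (by
    rw [finrank_of_bijective hd0 hb]; positivity)
  let κ := (MvPolynomial Γ K ⧸ I) ⧸ m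
  let : Field κ := Ideal.Quotient.field m
  let : NormedField κ := spectralNorm.normedField K κ
  have : IsUltrametricDist κ :=
    IsUltrametricDist.isUltrametricDist_of_isNonarchimedean_norm isNonarchimedean_spectralNorm
  have hK : ∀ c : K, ‖algebraMap K κ c‖ = ‖c‖ := spectralNorm_extends
  let s := quotAct (quotAct (tw β) I hI) m hm'
  let χ : MvPolynomial Γ K →+* κ := (Ideal.Quotient.mk m).comp (Ideal.Quotient.mk I)
  have hχ : ∀ γ x, s γ (χ x) = χ (tw β γ x) := fun _ _ => rfl
  have hC : ∀ c, χ (C c) = algebraMap K κ c := fun _ => rfl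
  have hs : ∀ γ x, ‖s γ x‖ = ‖x‖ := fun γ x =>
    spectralNorm_unique_field_norm_ext (K := K)
      (f := (NormedField.toAbsoluteValue κ).comp (act_inj s γ)) (fun c => by
        change ‖s γ (χ (C c))‖ = _
        rw [hχ, tw_C, hC, hK, hβ]) x
  have ha : ∀ γ, ‖χ (X γ)‖ = ‖χ (X 1)‖ := fun γ => by rw [← hs γ (χ (X 1)), hχ, tw_X, mul_one]
  refine span_ne_top_of_point (χ.comp (map ι)) (fun c => ?_) (a := ‖χ (X 1)‖)
    (fun γ => by simpa using ha γ) (norm_nonneg t) ht _ (fun γ => ?_) 1 hc he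
    (by rwa [act_one])
  · rw [RingHom.comp_apply, map_C, hC, hK]; exact hι c
  · have h0 : χ (g γ) = 0 := by
      change Ideal.Quotient.mk m (Ideal.Quotient.mk I (g γ)) = 0
      rw [Ideal.Quotient.eq_zero_iff_mem.2 (Ideal.subset_span (Set.mem_range_self γ)), map_zero]
    simp only [g, map_add, map_mul, map_pow, hC] at h0
    have h1 := congrArg norm (eq_neg_of_add_eq_zero_right h0)
    rw [norm_neg, norm_mul, hK, norm_pow, ha, norm_inv] at h1
    rw [RingHom.comp_apply, ← h1, mul_inv_cancel_left₀ (norm_ne_zero_iff.2 ht0)]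

end Pool.Agent.P.MP_e9ee98_al
end

-- part Pool.Agent.P.MP_e9ee98_al.TwE
section

/-!
A common zero of the conjugates of a polynomial with a monomial top part.
-/

namespace Pool.Agent.P.MP_e9ee98_al

open MvPolynomial

lemma deg_map {R S σ : Type} [CommRing R] [CommRing S] (φ : R →+* S) (f : MvPolynomial σ R) :
    (map φ f).totalDegree ≤ f.totalDegree := Finset.sup_mono (support_map_subset φ f)

theorem exists_point {k D Γ : Type} [Field k] [IsAlgClosed k] [CommRing D] [IsDomain D]
    [Algebra k D] [Algebra.FiniteType k D] [Group Γ] [Finite Γ] {q : ℕ} [Fact q.Prime]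
    (hΓ : IsPGroup q Γ) (α : Γ →* (D →+* D)) {d : ℕ} (hd : ¬ q ∣ d) (F : MvPolynomial Γ D)
    {e : Γ →₀ ℕ} {c : D} (hc : c ≠ 0) (he : (e.sum fun _ n => n) = d)
    (hF : (F - monomial e c).totalDegree < d) :
    ∃ ev : MvPolynomial Γ D →ₐ[k] k, (∀ γ, ev (tw α γ F) = 0) ∧ ∀ γ, ev (C (α γ c)) ≠ 0 := by
  classical
  have := Fintype.ofFinite Γ
  let E := FractionRing D
  let j := algebraMap D E
  have hj : Function.Injective j := IsFractionRing.injective D E
  have hi : ∀ γ, Function.Injective (j.comp (α γ)) := fun γ => hj.comp (act_inj α γ)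
  let β : Γ →* (E →+* E) :=
    { toFun γ := IsFractionRing.lift (hi γ)
      map_one' := IsFractionRing.ringHom_ext (A := D) fun x => by
        rw [IsFractionRing.lift_algebraMap, RingHom.comp_apply, act_one]; rfl
      map_mul' γ δ := IsFractionRing.ringHom_ext (A := D) fun x => by
        rw [IsFractionRing.lift_algebraMap, RingHom.mul_def, RingHom.comp_apply,
          RingHom.comp_apply, IsFractionRing.lift_algebraMap, RingHom.comp_apply,
          IsFractionRing.lift_algebraMap, RingHom.comp_apply, act_mul] }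
  have hβ : ∀ γ x, β γ (j x) = j (α γ x) := fun γ x => IsFractionRing.lift_algebraMap (hi γ) x
  have hk := key_lemma hΓ β hd (map j F) (e := e) (c := j c) ((map_ne_zero_iff j hj).2 hc) he
    (by rw [← map_monomial, ← map_sub]; exact (deg_map _ _).trans_lt hF)
  let I := Ideal.span (Set.range fun γ => tw α γ F)
  have hP : (C (∏ γ, α γ c) : MvPolynomial Γ D) ∉ I.radical := by
    rintro ⟨n, hn⟩
    have h1 := Ideal.mem_map_of_mem (map j) hn
    rw [Ideal.map_span, ← Set.range_comp] at h1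
    refine hk (Ideal.eq_top_of_isUnit_mem _ (by simpa only [tw_map hβ, Function.comp_def] using h1) ?_)
    rw [map_pow, map_C]
    refine (IsUnit.map C (Ne.isUnit ((map_ne_zero_iff j hj).2 ?_))).pow n
    exact Finset.prod_ne_zero_iff.2 fun γ _ => (map_ne_zero_iff _ (act_inj α γ)).2 hc
  have : IsJacobsonRing (MvPolynomial Γ D) := isJacobsonRing_of_finiteType (A := k)
  rw [Ideal.radical_eq_jacobson, Ideal.jacobson, Ideal.mem_sInf] at hP
  push Not at hP
  obtain ⟨m, ⟨hIm, hm⟩, hP⟩ := hP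
  let : Field (MvPolynomial Γ D ⧸ m) := Ideal.Quotient.field m
  have := finite_of_finite_type_of_isJacobsonRing k (MvPolynomial Γ D ⧸ m)
  let l : (MvPolynomial Γ D ⧸ m) →ₐ[k] k := IsAlgClosed.lift
  have h0 : ∀ x, l.comp (Ideal.Quotient.mkₐ k m) x = 0 ↔ x ∈ m := fun x => by
    rw [AlgHom.comp_apply, map_eq_zero_iff l l.injective]
    exact Ideal.Quotient.eq_zero_iff_mem
  refine ⟨l.comp (Ideal.Quotient.mkₐ k m),
    fun γ => (h0 _).2 (hIm (Ideal.subset_span ⟨γ, rfl⟩)), fun γ h => hP ?_⟩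
  rw [← Finset.mul_prod_erase _ _ (Finset.mem_univ γ), map_mul]
  exact m.mul_mem_right _ ((h0 _).1 h)

end Pool.Agent.P.MP_e9ee98_al
end

-- part Pool.Agent.P.MP_e9ee98_al.Words
section

/-!
Cyclically reduced words in a free product of groups.
-/

namespace Pool.Agent.P.MP_e9ee98_al

open Monoid

variable {ι : Type} {G : ι → Type} [∀ i, Group (G i)]

/-- The product of a list of letters. -/
def ev (L : List (Σ i, G i)) : CoprodI G := (L.map fun l => CoprodI.of l.2).prod

@[simp] lemma ev_nil : ev ([] : List (Σ i, G i)) = 1 := rfl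

@[simp] lemma ev_cons (l : Σ i, G i) (L : List (Σ i, G i)) :
    ev (l :: L) = CoprodI.of l.2 * ev L := by simp [ev]

@[simp] lemma ev_append (L L' : List (Σ i, G i)) : ev (L ++ L') = ev L * ev L' := by simp [ev]

lemma exists_ev (x : CoprodI G) : ∃ L, ev L = x := by
  induction x using CoprodI.induction_left with
  | one => exact ⟨[], rfl⟩
  | mul g x ih => obtain ⟨L, rfl⟩ := ih; exact ⟨⟨_, g⟩ :: L, by simp⟩

/-- A cyclically reduced word of length at least two. -/
def Cyc (L : List (Σ i, G i)) : Prop :=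
  ∃ l L', L = l :: L' ∧ L' ≠ [] ∧ (∀ m ∈ L, m.2 ≠ 1) ∧
    List.IsChain (fun a b : Σ i, G i => a.1 ≠ b.1) (L ++ [l])

lemma cyc_aux : ∀ (n : ℕ) (L : List (Σ i, G i)), L.length ≤ n →
    ∃ L', IsConj (ev L') (ev L) ∧ (L' = [] ∨ (∃ l, L' = [l]) ∨ Cyc L') := by
  intro n
  induction n with
  | zero => intro L hL; exact ⟨L, IsConj.refl _, Or.inl (List.length_eq_zero_iff.mp (by omega))⟩
  | succ n ih =>
    intro L hL
    by_cases h1 : ∃ m ∈ L, m.2 = 1
    · obtain ⟨m, hm, hm1⟩ := h1
      obtain ⟨s, t, rfl⟩ := List.append_of_mem hm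
      obtain ⟨L', h, h'⟩ := ih (s ++ t) (by simp at hL ⊢; omega)
      exact ⟨L', by simpa [hm1] using h, h'⟩
    push Not at h1
    by_cases h2 : ¬ List.IsChain (fun a b : Σ i, G i => a.1 ≠ b.1) L
    · rw [List.isChain_iff_forall_rel_of_append_cons_cons] at h2
      push Not at h2
      obtain ⟨⟨i, a⟩, ⟨j, b⟩, s, t, rfl, hij⟩ := h2
      simp only at hij
      subst hij
      obtain ⟨L', h, h'⟩ := ih (s ++ ⟨i, a * b⟩ :: t) (by simp at hL ⊢; omega)
      exact ⟨L', by simpa [mul_assoc] using h, h'⟩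
    push Not at h2
    rcases L with _ | ⟨l, L'⟩
    · exact ⟨[], IsConj.refl _, Or.inl rfl⟩
    rcases List.eq_nil_or_concat L' with rfl | ⟨s, m, rfl⟩
    · exact ⟨[l], IsConj.refl _, Or.inr (Or.inl ⟨l, rfl⟩)⟩
    by_cases h3 : m.1 = l.1
    · obtain ⟨i, a⟩ := l
      obtain ⟨j, b⟩ := m
      simp only at h3
      subst h3
      obtain ⟨L', h, h'⟩ := ih (⟨j, b * a⟩ :: s) (by simp at hL ⊢; omega)
      refine ⟨L', h.trans ?_, h'⟩
      rw [isConj_iff]
      exact ⟨(CoprodI.of b)⁻¹, by simp [mul_assoc]⟩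
    · refine ⟨_, IsConj.refl _, Or.inr (Or.inr ⟨l, _, rfl, by simp, h1, ?_⟩)⟩
      rw [List.isChain_append]
      refine ⟨h2, by simp, ?_⟩
      intro x hx y hy
      simp only [List.concat_eq_append, ← List.cons_append, List.getLast?_append, List.getLast?_singleton,
        Option.some_or, Option.mem_def, Option.some.injEq] at hx
      simp only [List.head?_cons, Option.mem_def, Option.some.injEq] at hy
      subst hx hy
      exact h3

lemma exists_cyc (x : CoprodI G) :
    ∃ L, IsConj (ev L) x ∧ (L = [] ∨ (∃ l, L = [l]) ∨ Cyc L) := by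
  obtain ⟨L, rfl⟩ := exists_ev x
  exact cyc_aux _ L le_rfl

end Pool.Agent.P.MP_e9ee98_al
end

-- part Pool.Agent.P.MP_e9ee98_al.Shape
section

/-!
Degree pattern of two by two polynomial matrices coming from cyclically reduced words.
-/

namespace Pool.Agent.P.MP_e9ee98_al

open Polynomial Matrix
open scoped MatrixGroups

variable {k : Type} [Field k]

/-- First column of degree below `r`, second column of degree at most `r`, lower right entry of
degree exactly `r`. -/
def Shape (r : ℕ) (N : Matrix (Fin 2) (Fin 2) k[X]) : Prop :=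
  (N 0 0).degree < r ∧ (N 1 0).degree < r ∧ (N 0 1).degree ≤ r ∧ (N 1 1).degree = r

lemma deg_lt_le {a b : k[X]} {r s : ℕ} (ha : a.degree < r) (hb : b.degree ≤ s) :
    (a * b).degree < (r + s : ℕ) := by
  rw [degree_mul, Nat.cast_add]
  by_cases h : b = 0
  · subst h; simp only [degree_zero, WithBot.add_bot]; exact WithBot.bot_lt_coe (r + s)
  · exact (WithBot.add_lt_add_right (degree_ne_bot.mpr h) ha).trans_le (by gcongr)

lemma deg_le_lt {a b : k[X]} {r s : ℕ} (ha : a.degree ≤ r) (hb : b.degree < s) :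
    (a * b).degree < (r + s : ℕ) := by
  rw [mul_comm, add_comm]; exact deg_lt_le hb ha

lemma deg_le_le {a b : k[X]} {r s : ℕ} (ha : a.degree ≤ r) (hb : b.degree ≤ s) :
    (a * b).degree ≤ (r + s : ℕ) := by
  rw [degree_mul, Nat.cast_add]; exact add_le_add ha hb

lemma Shape.mul {r s : ℕ} {N N' : Matrix (Fin 2) (Fin 2) k[X]} (h : Shape r N) (h' : Shape s N') :
    Shape (r + s) (N * N') := by
  obtain ⟨a, b, c, d⟩ := h
  obtain ⟨a', b', c', d'⟩ := h'
  simp only [Shape, Matrix.mul_apply, Fin.sum_univ_two]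
  refine ⟨?_, ?_, ?_, ?_⟩
  · exact (degree_add_le _ _).trans_lt (max_lt (deg_lt_le a a'.le) (deg_le_lt c b'))
  · exact (degree_add_le _ _).trans_lt (max_lt (deg_lt_le b a'.le) (deg_le_lt d.le b'))
  · exact (degree_add_le _ _).trans (max_le (deg_lt_le a c').le (deg_le_le c d'.le))
  · have h1 : (N 1 1 * N' 1 1).degree = (r + s : ℕ) := by rw [degree_mul, d, d', Nat.cast_add]
    rw [degree_add_eq_right_of_degree_lt, h1]
    rw [h1]; exact deg_lt_le b c'

lemma Shape.pow {r : ℕ} {N : Matrix (Fin 2) (Fin 2) k[X]} (h : Shape r N) :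
    ∀ m : ℕ, Shape ((m + 1) * r) (N ^ (m + 1))
  | 0 => by simpa using h
  | m + 1 => by
    rw [pow_succ, Nat.succ_mul]
    exact (Shape.pow h m).mul h

/-- Upper unipotent matrix with entry `c X`. -/
noncomputable def UX (c : k) : GL (Fin 2) k[X] := GeneralLinearGroup.upperRightHom (C c * X)

lemma UX_add (c d : k) : UX (c + d) = UX c * UX d := by
  simp only [UX, ← AddChar.map_add_eq_mul, map_add, add_mul]

lemma UX_zero : UX (0 : k) = 1 := by simp [UX]

lemma UX_inv (c : k) : (UX c)⁻¹ = UX (-c) := by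
  rw [inv_eq_iff_mul_eq_one, ← UX_add, add_neg_cancel, UX_zero]

/-- Constant matrices. -/
noncomputable def cst : GL (Fin 2) k →* GL (Fin 2) k[X] := GeneralLinearGroup.map C

lemma shape_one (A : GL (Fin 2) k) (hA : A 1 0 ≠ 0) {c : k} (hc : c ≠ 0) :
    Shape 1 (cst A * UX c : GL (Fin 2) k[X]).val := by
  have e : ∀ i j, (cst A * UX c : GL (Fin 2) k[X]).val i j =
      C (A i 0) * (!![1, C c * X; 0, 1] : Matrix (Fin 2) (Fin 2) k[X]) 0 j +
      C (A i 1) * (!![1, C c * X; 0, 1] : Matrix (Fin 2) (Fin 2) k[X]) 1 j := by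
    intro i j
    rw [Units.val_mul, Matrix.mul_apply, Fin.sum_univ_two]
    rfl
  have h0 : ∀ a : k, (C a).degree < (1 : ℕ) := fun a => degree_C_le.trans_lt (by norm_num)
  have h1 : ∀ a b : k, C a * (C c * X) + C b * 1 = C (a * c) * X + C b := fun a b => by
    simp [mul_assoc]
  refine ⟨?_, ?_, ?_, ?_⟩
  · rw [e]; simpa using h0 _
  · rw [e]; simpa using h0 _
  · rw [e]
    simp only [of_apply, cons_val', cons_val_one, cons_val_fin_one, cons_val_zero]
    rw [h1]; exact degree_linear_le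
  · rw [e]
    simp only [of_apply, cons_val', cons_val_one, cons_val_fin_one, cons_val_zero]
    rw [h1]; exact degree_linear (mul_ne_zero hA hc)

/-- The matrix of a word whose letters are matrices with attached shear parameters. -/
noncomputable def wm (L : List (k × GL (Fin 2) k)) : GL (Fin 2) k[X] :=
  (L.map fun l => UX l.1 * cst l.2 * (UX l.1)⁻¹).prod

lemma wm_shape : ∀ (L : List (k × GL (Fin 2) k)) (l : k × GL (Fin 2) k) (e : k × GL (Fin 2) k),
    (∀ m ∈ l :: L, m.2 1 0 ≠ 0) →
    List.IsChain (fun a b : k × GL (Fin 2) k => a.1 ≠ b.1) (l :: L ++ [e]) →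
    Shape (L.length + 1) ((UX l.1)⁻¹ * wm (l :: L) * UX e.1 : GL (Fin 2) k[X]).val := by
  intro L
  induction L with
  | nil =>
    intro l e h1 h2
    have h3 : l.1 ≠ e.1 := by simpa using h2
    have : (UX l.1)⁻¹ * wm [l] * UX e.1 = cst l.2 * UX (-l.1 + e.1) := by
      simp [wm, UX_add, ← UX_inv, mul_assoc]
    rw [this]
    exact shape_one _ (h1 l (by simp)) (by rw [neg_add_eq_sub]; exact sub_ne_zero.mpr h3.symm)
  | cons m L ih =>
    intro l e h1 h2
    have h3 : l.1 ≠ m.1 ∧ List.IsChain (fun a b : k × GL (Fin 2) k => a.1 ≠ b.1)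
        (m :: L ++ [e]) := by simpa using h2
    have : (UX l.1)⁻¹ * wm (l :: m :: L) * UX e.1 =
        (cst l.2 * UX (-l.1 + m.1)) * ((UX m.1)⁻¹ * wm (m :: L) * UX e.1) := by
      simp [wm, UX_add, ← UX_inv, mul_assoc]
    rw [this, Units.val_mul, List.length_cons, add_comm _ 1]
    exact (shape_one _ (h1 l (by simp))
      (by rw [neg_add_eq_sub]; exact sub_ne_zero.mpr h3.1.symm)).mul
      (ih m e (fun x hx => h1 x (List.mem_cons_of_mem _ hx)) h3.2)

lemma det_wm (L : List (k × GL (Fin 2) k)) : ∃ d : k, d ≠ 0 ∧ (wm L).val.det = C d := by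
  have hu := (wm L).isUnit.map (Matrix.detMonoidHom (n := Fin 2) (R := k[X]))
  obtain ⟨d, hd, h⟩ := Polynomial.isUnit_iff.mp hu
  exact ⟨d, hd.ne_zero, h.symm⟩

/-- A conjugation making all lower left entries of finitely many non scalar matrices non zero. -/
lemma exists_conj [Infinite k] (S : Finset (GL (Fin 2) k))
    (hS : ∀ A ∈ S, A ∉ Subgroup.center (GL (Fin 2) k)) :
    ∃ h : GL (Fin 2) k, ∀ A ∈ S, (h * A * h⁻¹) 1 0 ≠ 0 := by
  classical
  let q : GL (Fin 2) k → k[X] := fun A =>
    C (A 1 0) + C (A 0 0 - A 1 1) * X - C (A 0 1) * X ^ 2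
  have hq : ∀ A ∈ S, q A ≠ 0 := by
    intro A hA h0
    apply hS A hA
    have c0 := congrArg (coeff · 0) h0
    have c1 := congrArg (coeff · 1) h0
    have c2 := congrArg (coeff · 2) h0
    simp [q, coeff_C, coeff_X, -map_sub] at c0 c1 c2
    rw [GeneralLinearGroup.mem_center_iff_val_mem_range_scalar]
    refine ⟨A 0 0, ?_⟩
    ext i j
    fin_cases i <;> fin_cases j <;> simp [c0, c2, sub_eq_zero.mp c1]
  obtain ⟨s, hs⟩ := Infinite.exists_notMem_finset (∏ A ∈ S, q A).roots.toFinset
  have hP : ∏ A ∈ S, q A ≠ 0 := Finset.prod_ne_zero_iff.mpr hq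
  rw [Multiset.mem_toFinset, mem_roots hP, IsRoot.def, eval_prod] at hs
  refine ⟨⟨!![1, 0; s, 1], !![1, 0; -s, 1], by simp [one_fin_two], by simp [one_fin_two]⟩,
    fun A hA h0 => hs (Finset.prod_eq_zero hA ?_)⟩
  simp [Matrix.mul_apply, Fin.sum_univ_two, Matrix.vecMul, dotProduct] at h0
  simp only [q, eval_sub, eval_add, eval_mul, eval_C, eval_X, eval_pow]
  linear_combination h0

end Pool.Agent.P.MP_e9ee98_al
end
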