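import Pool.Agent.K.MP_e9ee98_al.C0
import Pool.Agent.P.MP_e9ee98_al.Defs

-- part Pool.Agent.P.MP_e9ee98_al.TwF
section

/-!
Degree pattern of the matrices of cyclically reduced words, in several variables.
-/

namespace Pool.Agent.P.MP_e9ee98_al

open MvPolynomial Matrix
open scoped MatrixGroups

variable {D σ : Type} [CommRing D]

/-- First column of total degree below `r`, second column of total degree at most `r`, lower right
entry a monomial of degree `r` plus terms of lower degree. -/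
def MS (r : ℕ) (e : σ →₀ ℕ) (c : D) (N : Matrix (Fin 2) (Fin 2) (MvPolynomial σ D)) : Prop :=
  (e.sum fun _ n => n) = r ∧ (N 0 0).totalDegree < r ∧ (N 1 0).totalDegree < r ∧
    (N 0 1).totalDegree ≤ r ∧ (N 1 1 - monomial e c).totalDegree < r

lemma td_lt_le {a b : MvPolynomial σ D} {r s : ℕ} (ha : a.totalDegree < r)
    (hb : b.totalDegree ≤ s) : (a * b).totalDegree < r + s :=
  (totalDegree_mul a b).trans_lt (by omega)

lemma td_le_lt {a b : MvPolynomial σ D} {r s : ℕ} (ha : a.totalDegree ≤ r)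
    (hb : b.totalDegree < s) : (a * b).totalDegree < r + s :=
  (totalDegree_mul a b).trans_lt (by omega)

lemma td_add {a b : MvPolynomial σ D} {r : ℕ} (ha : a.totalDegree < r)
    (hb : b.totalDegree < r) : (a + b).totalDegree < r :=
  (totalDegree_add a b).trans_lt (max_lt ha hb)

lemma td_add_le {a b : MvPolynomial σ D} {r : ℕ} (ha : a.totalDegree ≤ r)
    (hb : b.totalDegree ≤ r) : (a + b).totalDegree ≤ r :=
  (totalDegree_add a b).trans (max_le ha hb)

variable {r s : ℕ} {e e' : σ →₀ ℕ} {c c' : D} {N N' : Matrix (Fin 2) (Fin 2) (MvPolynomial σ D)}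

lemma MS.mono (h : MS r e c N) : (monomial e c).totalDegree ≤ r :=
  (totalDegree_monomial_le _ _).trans h.1.le

lemma MS.le (h : MS r e c N) : (N 1 1).totalDegree ≤ r := by
  rw [← sub_add_cancel (N 1 1) (monomial e c)]
  exact td_add_le h.2.2.2.2.le h.mono

lemma MS.sum (h : MS r e c N) (h' : MS s e' c' N') : ((e + e').sum fun _ n => n) = r + s := by
  rw [Finsupp.sum_add_index' (fun _ => rfl) fun _ _ _ => rfl, h.1, h'.1]

lemma MS.mul (h : MS r e c N) (h' : MS s e' c' N') : MS (r + s) (e + e') (c * c') (N * N') := by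
  have ⟨_, a0, a1, a2, a3⟩ := h
  have ⟨_, b0, b1, b2, b3⟩ := h'
  simp only [MS, Matrix.mul_apply, Fin.sum_univ_two]
  refine ⟨h.sum h', td_add (td_lt_le a0 b0.le) (td_le_lt a2 b1),
    td_add (td_lt_le a1 b0.le) (td_le_lt h.le b1),
    td_add_le (td_lt_le a0 b2).le ((totalDegree_mul _ _).trans (add_le_add a2 h'.le)), ?_⟩
  have : N 1 0 * N' 0 1 + N 1 1 * N' 1 1 - monomial (e + e') (c * c') =
      N 1 0 * N' 0 1 + ((N 1 1 - monomial e c) * N' 1 1 +
        monomial e c * (N' 1 1 - monomial e' c')) := by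
    rw [← monomial_mul]; ring
  rw [this]
  exact td_add (td_lt_le a1 b2) (td_add (td_lt_le a3 h'.le) (td_le_lt h.mono b3))

lemma MS.trace (h : MS r e c N) (hd : N.det.totalDegree = 0) (w w' : D) :
    (C w * (N 0 0 + N 1 1) ^ 2 - C w' * N.det - monomial (e + e) (w * (c * c))).totalDegree
      < r + r := by
  have ⟨_, a0, _, _, a3⟩ := h
  have : C w * (N 0 0 + N 1 1) ^ 2 - C w' * N.det - monomial (e + e) (w * (c * c)) =
      C w * ((N 0 0 + (N 1 1 - monomial e c)) * (N 0 0 + (N 1 1 + monomial e c))) +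
        C (-w') * N.det := by
    rw [← C_mul_monomial, ← monomial_mul, map_neg]; ring
  rw [this]
  refine td_add ((totalDegree_mul _ _).trans_lt ?_) ((totalDegree_mul _ _).trans_lt ?_)
  · rw [totalDegree_C, zero_add]
    exact td_lt_le (td_add a0 a3) (td_add_le a0.le (td_add_le h.le h.mono))
  · rw [totalDegree_C, hd]; omega

lemma MS.shape {k : Type} [Field k] (θ : MvPolynomial σ D →+* Polynomial k) (φ : D →+* k)
    (x : σ → k) (hC : ∀ c, θ (C c) = Polynomial.C (φ c))
    (hX : ∀ i, θ (X i) = Polynomial.X + Polynomial.C (x i)) (h : MS r e c N) (hc : φ c ≠ 0) :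
    Shape r (θ.mapMatrix N) := by
  have hθ : θ = (aeval fun i => Polynomial.X + Polynomial.C (x i) :
      MvPolynomial σ k →ₐ[k] Polynomial k).toRingHom.comp (map φ) :=
    ringHom_ext (fun c => by simp [hC]) fun i => by simp [hX]
  have hle : ∀ f, (θ f).degree ≤ f.totalDegree := fun f => by
    refine Polynomial.degree_le_of_natDegree_le ?_
    rw [hθ]
    exact (aeval_natDegree_le _ (deg_map φ f) _ fun i => (Polynomial.natDegree_X_add_C _).le).trans
      (mul_one _).le
  have hlt : ∀ f : MvPolynomial σ D, f.totalDegree < r → (θ f).degree < r := fun f hf =>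
    (hle f).trans_lt (by exact_mod_cast hf)
  have hm : (θ (monomial e c)).degree = r := by
    rw [monomial_eq, map_mul, hC, Polynomial.degree_mul, Polynomial.degree_C hc, zero_add,
      Finsupp.prod, map_prod, Polynomial.degree_prod, ← h.1, Finsupp.sum, Nat.cast_sum]
    simp [hX]
  refine ⟨hlt _ h.2.1, hlt _ h.2.2.1, (hle _).trans (by exact_mod_cast h.2.2.2.1), ?_⟩
  change (θ (N 1 1)).degree = r
  rw [← sub_add_cancel (N 1 1) (monomial e c), map_add,
    Polynomial.degree_add_eq_right_of_degree_lt (hm ▸ hlt _ h.2.2.2.2), hm]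

/-- Upper unipotent matrix with entry `c * X i`. -/
noncomputable def UV (c : D) (i : σ) : GL (Fin 2) (MvPolynomial σ D) :=
  GeneralLinearGroup.upperRightHom (C c * X i)

lemma UV_sub (c d : D) (i : σ) : (UV c i)⁻¹ * UV d i = UV (d - c) i := by
  rw [inv_mul_eq_iff_eq_mul]
  simp only [UV, ← AddChar.map_add_eq_mul, ← add_mul, ← map_add, add_sub_cancel]

lemma ms_one (B : GL (Fin 2) D) (c : D) (i : σ) :
    MS 1 (Finsupp.single i 1) (B 1 0 * c) (GeneralLinearGroup.map C B * UV c i).val := by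
  have e : ∀ a b, (GeneralLinearGroup.map C B * UV c i).val a b =
      C (B a 0) * (!![1, C c * X i; 0, 1] : Matrix (Fin 2) (Fin 2) (MvPolynomial σ D)) 0 b +
      C (B a 1) * (!![1, C c * X i; 0, 1] : Matrix (Fin 2) (Fin 2) (MvPolynomial σ D)) 1 b := by
    intro a b
    rw [Units.val_mul, Matrix.mul_apply, Fin.sum_univ_two]
    rfl
  have h1 : ∀ a b : D, (C a * (C c * X i) + C b * 1 : MvPolynomial σ D) =
      monomial (Finsupp.single i 1) (a * c) + C b := fun a b => by
    rw [← mul_assoc, ← map_mul, C_mul_X_eq_monomial, mul_one]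
  refine ⟨by simp, ?_, ?_, ?_, ?_⟩
  · rw [e]; simp
  · rw [e]; simp
  · rw [e]
    simp only [of_apply, cons_val', cons_val_one, cons_val_fin_one, cons_val_zero]
    rw [h1]
    exact td_add_le ((totalDegree_monomial_le _ _).trans (by simp)) (by simp)
  · rw [e]
    simp only [of_apply, cons_val', cons_val_one, cons_val_fin_one, cons_val_zero]
    rw [h1]; simp

variable {Γ Λ : Type} [Group Γ]

/-- The matrix of a word in the twisted setting. -/
noncomputable def tm (lam : Λ → D) (B : Γ → Λ → GL (Fin 2) D) (π : Λ → Γ) :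
    Γ → List Λ → GL (Fin 2) (MvPolynomial Γ D)
  | _, [] => 1
  | γ, m :: L => UV (lam m) γ * GeneralLinearGroup.map C (B γ m) * (UV (lam m) (γ * π m))⁻¹ *
      tm lam B π (γ * π m) L

lemma tm_shape [IsDomain D] (lam : Λ → D) (B : Γ → Λ → GL (Fin 2) D) (π : Λ → Γ) :
    ∀ (L : List Λ) (l z : Λ) (γ : Γ), (∀ m ∈ l :: L, ∀ γ, B γ m 1 0 ≠ 0) →
    List.IsChain (fun a b => lam a ≠ lam b) (l :: L ++ [z]) →
    ∃ e c, c ≠ 0 ∧ MS (L.length + 1) e c ((UV (lam l) γ)⁻¹ * tm lam B π γ (l :: L) *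
      UV (lam z) (γ * ((l :: L).map π).prod)).val := by
  intro L
  induction L with
  | nil =>
    intro l z γ h1 h2
    have h3 : lam l ≠ lam z := by simpa using h2
    have : (UV (lam l) γ)⁻¹ * tm lam B π γ [l] * UV (lam z) (γ * ([l].map π).prod) =
        GeneralLinearGroup.map C (B γ l) * UV (lam z - lam l) (γ * π l) := by
      simp [tm, ← UV_sub, mul_assoc]
    rw [this]
    exact ⟨_, _, mul_ne_zero (h1 l (by simp) γ) (sub_ne_zero.2 h3.symm), ms_one _ _ _⟩
  | cons m L ih =>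
    intro l z γ h1 h2
    have h3 : lam l ≠ lam m ∧ List.IsChain (fun a b => lam a ≠ lam b) (m :: L ++ [z]) := by
      simpa using h2
    have : (UV (lam l) γ)⁻¹ * tm lam B π γ (l :: m :: L) *
        UV (lam z) (γ * ((l :: m :: L).map π).prod) =
        (GeneralLinearGroup.map C (B γ l) * UV (lam m - lam l) (γ * π l)) *
          ((UV (lam m) (γ * π l))⁻¹ * tm lam B π (γ * π l) (m :: L) *
            UV (lam z) (γ * π l * ((m :: L).map π).prod)) := by
      rw [tm]
      simp [← UV_sub, mul_assoc]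
    obtain ⟨e, c, hc, h⟩ := ih m z (γ * π l) (fun x hx => h1 x (List.mem_cons_of_mem _ hx)) h3.2
    rw [this, Units.val_mul, List.length_cons, add_comm _ 1]
    exact ⟨_, _, mul_ne_zero (mul_ne_zero (h1 l (by simp) γ) (sub_ne_zero.2 h3.1.symm)) hc,
      (ms_one _ _ _).mul h⟩

end Pool.Agent.P.MP_e9ee98_al
end

-- part Pool.Agent.P.MP_e9ee98_al.Orders
section

/-!
Orders of a polynomial matrix in the projective linear groups of truncated polynomial rings.
-/

namespace Pool.Agent.P.MP_e9ee98_al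

open Polynomial Matrix
open scoped MatrixGroups

lemma seq_hit {p : ℕ} (hp : p.Prime) (o : ℕ → ℕ) (h1 : ∀ K, o K ∣ o (K + 1))
    (h2 : ∀ K, o (K + 1) ∣ p * o K) {n e : ℕ} (hn : 0 < n) (he : n = o 0 * p ^ e)
    (h3 : ∃ K, ¬ o K ∣ n) : ∃ K, o K = n := by
  classical
  have h0 : 0 < o 0 := Nat.pos_of_mul_pos_right (he ▸ hn)
  have step : ∀ K, 0 < o K → o (K + 1) = o K ∨ o (K + 1) = o K * p := by
    intro K hK
    obtain ⟨c, hc⟩ := h1 K
    have : c ∣ p := by
      have := h2 K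
      rw [hc, mul_comm p] at this
      exact Nat.dvd_of_mul_dvd_mul_left hK this
    rcases hp.eq_one_or_self_of_dvd c this with rfl | rfl
    · left; simpa using hc
    · right; exact hc
  have form : ∀ K, ∃ a, o K = o 0 * p ^ a := by
    intro K
    induction K with
    | zero => exact ⟨0, by simp⟩
    | succ K ih =>
      obtain ⟨a, ha⟩ := ih
      rcases step K (ha ▸ Nat.mul_pos h0 (pow_pos hp.pos a)) with h | h
      · exact ⟨a, h.trans ha⟩
      · exact ⟨a + 1, by rw [h, ha, pow_succ, mul_assoc]⟩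
  have hK := Nat.find_spec h3
  rcases hf : Nat.find h3 with _ | K
  · rw [hf] at hK; exact absurd ⟨_, he⟩ hK
  rw [hf] at hK
  have hK' : o K ∣ n := by
    by_contra h
    have := Nat.find_min' h3 h
    omega
  obtain ⟨a, ha⟩ := form K
  refine ⟨K, ?_⟩
  rcases step K (ha ▸ Nat.mul_pos h0 (pow_pos hp.pos a)) with h | h
  · exact absurd (h ▸ hK') hK
  rw [h, ha, he, mul_assoc, ← pow_succ] at hK
  rw [ha, he] at hK'
  have l1 : a ≤ e := (Nat.pow_dvd_pow_iff_le_right hp.one_lt).mp (Nat.dvd_of_mul_dvd_mul_left h0 hK')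
  have l2 : ¬ a + 1 ≤ e := fun h => hK (Nat.mul_dvd_mul_left _ (pow_dvd_pow _ h))
  rw [ha, he, show a = e by omega]

lemma mem_center_two {R : Type} [CommRing R] (g : GL (Fin 2) R) :
    g ∈ Subgroup.center (GL (Fin 2) R) ↔ g.val 0 1 = 0 ∧ g.val 1 0 = 0 ∧ g.val 0 0 = g.val 1 1 := by
  rw [GeneralLinearGroup.mem_center_iff_val_mem_range_scalar]
  constructor
  · rintro ⟨a, ha⟩
    rw [← ha]; simp
  · rintro ⟨h1, h2, h3⟩
    refine ⟨g.val 0 0, ?_⟩
    ext i j
    fin_cases i <;> fin_cases j <;> simp [h1, h2, h3]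

variable {k : Type} [Field k]

/-- Being scalar modulo `f`. -/
def Sc (f : k[X]) (M : Matrix (Fin 2) (Fin 2) k[X]) : Prop :=
  f ∣ M 0 1 ∧ f ∣ M 1 0 ∧ f ∣ M 0 0 - M 1 1

/-- Reduction modulo `f`. -/
noncomputable def red (f : k[X]) : PGL(2, k[X]) →* PGL(2, AdjoinRoot f) :=
  ProjGenLinGroup.map (AdjoinRoot.mk f)

lemma order_dvd_iff (f : k[X]) (N : GL (Fin 2) k[X]) (j : ℕ) :
    orderOf (red f (ProjGenLinGroup.mk N)) ∣ j ↔ Sc f (N.val ^ j) := by
  rw [orderOf_dvd_iff_pow_eq_one, ← map_pow, ← map_pow, red, ProjGenLinGroup.map_mk,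
    ProjGenLinGroup.mk_eq_one, mem_center_two, Sc, ← Units.val_pow_eq_pow_val]
  simp only [← AdjoinRoot.mk_eq_zero, map_sub, sub_eq_zero]
  rfl

lemma Sc.step {p : ℕ} [Fact p.Prime] [CharP k p] {f : k[X]} {K : ℕ}
    {M : Matrix (Fin 2) (Fin 2) k[X]} (h : Sc (f ^ (K + 1)) M) : Sc (f ^ (K + 2)) (M ^ p) := by
  obtain ⟨⟨a, ha⟩, ⟨b, hb⟩, ⟨c, hc⟩⟩ := h
  have e : M = M 1 1 • (1 : Matrix (Fin 2) (Fin 2) k[X]) + f ^ (K + 1) • !![c, a; b, 0] := by
    ext i j : 2
    fin_cases i <;> fin_cases j <;> simp [← ha, ← hb, ← hc]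
  have hd : f ^ (K + 2) ∣ (f ^ (K + 1)) ^ p := by
    rw [← pow_mul]
    have := (Fact.out : p.Prime).two_le
    exact pow_dvd_pow _ (by nlinarith)
  rw [e, add_pow_char_of_commute p ((Commute.one_left _).smul_left _), _root_.smul_pow,
    _root_.smul_pow, one_pow]
  refine ⟨?_, ?_, ?_⟩
  · simpa using hd.mul_right _
  · simpa using hd.mul_right _
  · simp only [Matrix.add_apply, Matrix.smul_apply, one_apply_eq, smul_eq_mul, mul_one,
      add_sub_add_left_eq_sub]
    exact dvd_sub (hd.mul_right _) (hd.mul_right _)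

lemma pow_formula {M : Matrix (Fin 2) (Fin 2) k} {μ ω : k} (ht : M 0 0 + M 1 1 = μ * (1 + ω))
    (hd : M 0 0 * M 1 1 - M 0 1 * M 1 0 = μ ^ 2 * ω) (j : ℕ) :
    μ • M ^ j = μ ^ (j + 1) • (1 : Matrix (Fin 2) (Fin 2) k) +
      (μ ^ j * ∑ i ∈ Finset.range j, ω ^ i) • (M - μ • 1) := by
  have hw : (M - μ • 1) * M = (μ * ω) • (M - μ • 1) := by
    ext i j
    fin_cases i <;> fin_cases j <;> simp [Matrix.mul_apply, Fin.sum_univ_two]
    · linear_combination (M 0 0) * ht - hd
    · linear_combination (M 0 1) * ht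
    · linear_combination (M 1 0) * ht
    · linear_combination (M 1 1) * ht - hd
  induction j with
  | zero => simp
  | succ j ih =>
    rw [pow_succ M, ← smul_mul_assoc, ih, add_mul, smul_mul_assoc, smul_mul_assoc, hw, one_mul,
      geom_sum_succ]
    module

lemma scalar_pow_iff {M : Matrix (Fin 2) (Fin 2) k} {μ ω : k} (hμ : μ ≠ 0)
    (ht : M 0 0 + M 1 1 = μ * (1 + ω)) (hd : M 0 0 * M 1 1 - M 0 1 * M 1 0 = μ ^ 2 * ω) (j : ℕ) :
    ((M ^ j) 0 1 = 0 ∧ (M ^ j) 1 0 = 0 ∧ (M ^ j) 0 0 - (M ^ j) 1 1 = 0) ↔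
      (∑ i ∈ Finset.range j, ω ^ i = 0 ∨ (M 0 1 = 0 ∧ M 1 0 = 0 ∧ M 0 0 - M 1 1 = 0)) := by
  have h := pow_formula ht hd j
  set s := ∑ i ∈ Finset.range j, ω ^ i
  have e1 : μ * (M ^ j) 0 1 = μ ^ j * s * M 0 1 := by simpa using congrFun (congrFun h 0) 1
  have e2 : μ * (M ^ j) 1 0 = μ ^ j * s * M 1 0 := by simpa using congrFun (congrFun h 1) 0
  have e3 : μ * ((M ^ j) 0 0 - (M ^ j) 1 1) = μ ^ j * s * (M 0 0 - M 1 1) := by
    have a := congrFun (congrFun h 0) 0
    have b := congrFun (congrFun h 1) 1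
    simp at a b
    linear_combination a - b
  have hj : μ ^ j ≠ 0 := pow_ne_zero _ hμ
  constructor
  · rintro ⟨a, b, c⟩
    rw [a] at e1; rw [b] at e2; rw [c] at e3
    by_cases hs : s = 0
    · exact Or.inl hs
    · have := mul_ne_zero hj hs
      exact Or.inr ⟨by simpa [this] using e1.symm, by simpa [this] using e2.symm,
        by simpa [this] using e3.symm⟩
  · rintro (hs | ⟨a, b, c⟩)
    · rw [hs] at e1 e2 e3
      exact ⟨by simpa [hμ] using e1, by simpa [hμ] using e2, by simpa [hμ] using e3⟩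
    · rw [a] at e1; rw [b] at e2; rw [c] at e3
      exact ⟨by simpa [hμ] using e1, by simpa [hμ] using e2, by simpa [hμ] using e3⟩

theorem exists_order {p : ℕ} [Fact p.Prime] [CharP k p] [IsAlgClosed k] {r : ℕ} (hr : 0 < r)
    (N : GL (Fin 2) k[X]) (hN : Shape r N.val) {n : ℕ} (hn : 2 ≤ n) :
    ∃ (t : k) (K : ℕ), orderOf (red ((X - C t) ^ K) (ProjGenLinGroup.mk N)) = n := by
  have hp : p.Prime := Fact.out
  obtain ⟨a, n', hn', rfl⟩ := Nat.exists_eq_pow_mul_and_not_dvd (n := n) (by omega) p hp.ne_one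
  have : NeZero (n' : k) := ⟨fun h => hn' ((CharP.cast_eq_zero_iff k p n').mp h)⟩
  have : NeZero n' := NeZero.of_neZero_natCast k
  obtain ⟨ω, hω⟩ := HasEnoughRootsOfUnity.exists_primitiveRoot k n'
  have hω0 : ω ≠ 0 := hω.ne_zero (NeZero.ne n')
  obtain ⟨d, hd0, hd⟩ : ∃ d : k, d ≠ 0 ∧ N.val.det = C d := by
    have hu := N.isUnit.map (Matrix.detMonoidHom (n := Fin 2) (R := k[X]))
    obtain ⟨d, hd, h⟩ := Polynomial.isUnit_iff.mp hu
    exact ⟨d, hd.ne_zero, h.symm⟩
  obtain ⟨μ, hμ⟩ := IsAlgClosed.exists_pow_nat_eq (d / ω) two_pos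
  have hμ0 : μ ≠ 0 := by
    rintro rfl
    exact div_ne_zero hd0 hω0 (by simpa using hμ.symm)
  have hdeg : (N.val 0 0 + N.val 1 1 - C (μ * (1 + ω))).degree = r := by
    have h1 : (N.val 0 0 + N.val 1 1).degree = r := by
      rw [degree_add_eq_right_of_degree_lt, hN.2.2.2]
      rw [hN.2.2.2]; exact hN.1
    rw [degree_sub_eq_left_of_degree_lt, h1]
    rw [h1]; exact degree_C_le.trans_lt (by exact_mod_cast hr)
  obtain ⟨t, ht⟩ := IsAlgClosed.exists_root _ (by rw [hdeg]; exact_mod_cast hr.ne')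
  set M : Matrix (Fin 2) (Fin 2) k := (evalRingHom t).mapMatrix N.val with hM
  have hMe : ∀ j a b, (M ^ j) a b = ((N.val ^ j) a b).eval t := fun j a b => by
    rw [hM, ← map_pow]; rfl
  have htr : M 0 0 + M 1 1 = μ * (1 + ω) := by
    have := ht.eq_zero
    simp only [eval_sub, eval_add, eval_C] at this
    exact sub_eq_zero.mp this
  have hdet : M 0 0 * M 1 1 - M 0 1 * M 1 0 = μ ^ 2 * ω := by
    have := congrArg (eval t) hd
    rw [Matrix.det_fin_two] at this
    simp only [eval_sub, eval_mul, eval_C] at this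
    rw [hμ, div_mul_cancel₀ _ hω0]
    exact this
  let o : ℕ → ℕ := fun K => orderOf (red ((X - C t) ^ (K + 1)) (ProjGenLinGroup.mk N))
  have h0 : ∀ j, o 0 ∣ j ↔
      (∑ i ∈ Finset.range j, ω ^ i = 0 ∨ (M 0 1 = 0 ∧ M 1 0 = 0 ∧ M 0 0 - M 1 1 = 0)) := by
    intro j
    rw [← scalar_pow_iff hμ0 htr hdet, order_dvd_iff, Sc]
    simp only [zero_add, pow_one, dvd_iff_isRoot, IsRoot.def, hMe, eval_sub]
  have hbase : ∃ e, p ^ a * n' = o 0 * p ^ e := by
    by_cases h1 : n' = 1
    · subst h1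
      have : ω = 1 := by simpa using hω.pow_eq_one
      have h2 : o 0 ∣ p := (h0 p).mpr (Or.inl (by simp [this]))
      rcases hp.eq_one_or_self_of_dvd _ h2 with h | h
      · exact ⟨a, by simp [h]⟩
      · rcases a with _ | a
        · simp at hn
        · exact ⟨a, by rw [h]; ring⟩
    · have hω1 : ω ≠ 1 := hω.ne_one (by have := NeZero.pos n'; omega)
      have hns : ¬ (M 0 1 = 0 ∧ M 1 0 = 0 ∧ M 0 0 - M 1 1 = 0) := by
        rintro ⟨h1, -, h3⟩
        rw [h1] at hdet
        have : (μ * (ω - 1)) ^ 2 = 0 := by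
          linear_combination (-(M 0 0 + M 1 1 + μ * (1 + ω))) * htr + 4 * hdet +
            (M 0 0 - M 1 1) * h3
        exact mul_ne_zero hμ0 (sub_ne_zero.mpr hω1) (pow_eq_zero_iff two_ne_zero |>.mp this)
      have h2 : ∀ j, o 0 ∣ j ↔ n' ∣ j := by
        intro j
        rw [h0, ← hω.pow_eq_one_iff_dvd, ← sub_eq_zero (a := ω ^ j), ← geom_sum_mul]
        simp [hns, sub_ne_zero.mpr hω1]
      exact ⟨a, by rw [Nat.dvd_antisymm ((h2 _).mpr dvd_rfl) ((h2 _).mp dvd_rfl), mul_comm]⟩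
  obtain ⟨e, he⟩ := hbase
  suffices h : ∃ K, o K = p ^ a * n' from let ⟨K, hK⟩ := h; ⟨t, K + 1, hK⟩
  refine seq_hit hp o (n := p ^ a * n') (e := e) (fun K => ?_) (fun K => ?_) (by omega) he ?_
  · have h := (order_dvd_iff ((X - C t) ^ (K + 2)) N _).mp dvd_rfl
    have hd : (X - C t) ^ (K + 1) ∣ (X - C t) ^ (K + 2) := pow_dvd_pow _ (by omega)
    exact (order_dvd_iff _ N _).mpr ⟨hd.trans h.1, hd.trans h.2.1, hd.trans h.2.2⟩
  · have h := (order_dvd_iff ((X - C t) ^ (K + 1)) N _).mp dvd_rfl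
    refine (order_dvd_iff _ N _).mpr ?_
    rw [mul_comm, pow_mul]
    exact h.step
  · obtain ⟨m, hm⟩ : ∃ m, p ^ a * n' = m + 1 := ⟨p ^ a * n' - 1, by omega⟩
    rw [hm]
    refine ⟨(m + 1) * r, fun h => ?_⟩
    have h1 := ((order_dvd_iff _ N _).mp h).2.2
    have hs := hN.pow m
    have h2 : ((N.val ^ (m + 1)) 0 0 - (N.val ^ (m + 1)) 1 1).degree = ((m + 1) * r : ℕ) := by
      rw [degree_sub_eq_right_of_degree_lt, hs.2.2.2]
      rw [hs.2.2.2]; exact hs.1
    have h3 := degree_le_of_dvd h1 (by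
      intro h0; rw [h0, degree_zero] at h2; exact WithBot.bot_ne_coe h2)
    rw [h2, degree_pow, degree_X_sub_C, nsmul_one] at h3
    have : (m + 1) * r + 1 ≤ (m + 1) * r := by exact_mod_cast h3
    omega

/-- Finitely generated subgroups of `PGL₂` over a ring integral over a prime field are finite. -/
lemma exists_finite_subgroup {p : ℕ} [Fact p.Prime] {R : Type} [CommRing R] [Algebra (ZMod p) R]
    [Algebra.IsIntegral (ZMod p) R] (S : Set PGL(2, R)) (hS : S.Finite) :
    ∃ H : Subgroup PGL(2, R), Finite H ∧ S ⊆ H := by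
  classical
  choose s hs using (ProjGenLinGroup.mk_surjective : Function.Surjective
    (ProjGenLinGroup.mk : GL (Fin 2) R → PGL(2, R)))
  let T : Set R := ⋃ g ∈ S, (Set.range fun ij : Fin 2 × Fin 2 => (s g).val ij.1 ij.2) ∪
    (Set.range fun ij : Fin 2 × Fin 2 => (s g)⁻¹.val ij.1 ij.2)
  have hT : T.Finite := hS.biUnion fun g _ => (Set.finite_range _).union (Set.finite_range _)
  let A := Algebra.adjoin (ZMod p) T
  have : Module.Finite (ZMod p) A :=
    Algebra.finite_adjoin_of_finite_of_isIntegral hT fun x _ => Algebra.IsIntegral.isIntegral x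
  have : Finite A := Module.finite_of_finite (ZMod p)
  have hmul : ∀ g h : GL (Fin 2) R, (∀ i j, g.val i j ∈ A) → (∀ i j, h.val i j ∈ A) →
      ∀ i j, (g * h).val i j ∈ A := by
    intro g h hg hh i j
    rw [Units.val_mul, Matrix.mul_apply]
    exact A.sum_mem fun l _ => A.mul_mem (hg _ _) (hh _ _)
  let H0 : Subgroup (GL (Fin 2) R) :=
    { carrier := {g | (∀ i j, g.val i j ∈ A) ∧ ∀ i j, g⁻¹.val i j ∈ A}
      mul_mem' := fun {g h} hg hh => ⟨hmul g h hg.1 hh.1, by
        rw [_root_.mul_inv_rev]; exact hmul _ _ hh.2 hg.2⟩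
      one_mem' := by
        have : ∀ i j, (1 : GL (Fin 2) R).val i j ∈ A := fun i j => by
          rw [Units.val_one, Matrix.one_apply]
          split_ifs
          · exact A.one_mem
          · exact A.zero_mem
        exact ⟨this, by rw [inv_one]; exact this⟩
      inv_mem' := fun {g} hg => ⟨hg.2, by simpa using hg.1⟩ }
  have : Finite H0 := Finite.of_injective
    (fun g : H0 => (fun i j => ⟨g.1.val i j, g.2.1 i j⟩ : Fin 2 → Fin 2 → A)) (by
      intro g h e
      refine Subtype.ext (Units.ext ?_)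
      ext i j
      exact congrArg Subtype.val (congrFun (congrFun e i) j))
  refine ⟨H0.map ProjGenLinGroup.mk, ?_, fun g hg => ⟨s g, ⟨fun i j => ?_, fun i j => ?_⟩, hs g⟩⟩
  · exact Finite.of_surjective _ (MonoidHom.subgroupMap_surjective _ H0)
  · exact Algebra.subset_adjoin (Set.mem_biUnion hg (Or.inl ⟨(i, j), rfl⟩))
  · exact Algebra.subset_adjoin (Set.mem_biUnion hg (Or.inr ⟨(i, j), rfl⟩))

end Pool.Agent.P.MP_e9ee98_al
end

-- part Pool.Agent.P.MP_e9ee98_al.TwG
section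

/-!
The common order of a family of polynomial matrices modulo powers of `X`.
-/

namespace Pool.Agent.P.MP_e9ee98_al

open Polynomial Matrix
open scoped MatrixGroups

variable {k : Type} [Field k]

lemma order_base [IsAlgClosed k] (N : GL (Fin 2) k[X]) {ω : k} (hω0 : ω ≠ 0)
    (ht : ω * (N.val 0 0 + N.val 1 1).eval 0 ^ 2 = (1 + ω) ^ 2 * N.val.det.eval 0) (j : ℕ) :
    (∑ i ∈ Finset.range j, ω ^ i = 0 → Sc X (N.val ^ j)) ∧
      (ω ≠ 1 → Sc X (N.val ^ j) → ∑ i ∈ Finset.range j, ω ^ i = 0) := by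
  have hd0 : N.val.det.eval 0 ≠ 0 :=
    ((N.isUnit.map (Matrix.detMonoidHom (n := Fin 2) (R := k[X]))).map (evalRingHom 0)).ne_zero
  set M : Matrix (Fin 2) (Fin 2) k := (evalRingHom 0).mapMatrix N.val with hM
  have hMe : ∀ j a b, (M ^ j) a b = ((N.val ^ j) a b).eval 0 := fun j a b => by
    rw [hM, ← map_pow]; rfl
  have e1 : (N.val 0 0 + N.val 1 1).eval 0 = M 0 0 + M 1 1 := eval_add
  have e2 : N.val.det.eval 0 = M 0 0 * M 1 1 - M 0 1 * M 1 0 := by
    rw [Matrix.det_fin_two, eval_sub, eval_mul, eval_mul]; rfl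
  rw [e1, e2] at ht
  rw [e2] at hd0
  obtain ⟨μ, htr, hdet⟩ : ∃ μ : k, M 0 0 + M 1 1 = μ * (1 + ω) ∧
      M 0 0 * M 1 1 - M 0 1 * M 1 0 = μ ^ 2 * ω := by
    obtain ⟨μ, hμ⟩ := IsAlgClosed.exists_pow_nat_eq ((M 0 0 * M 1 1 - M 0 1 * M 1 0) / ω) two_pos
    have h1 : M 0 0 * M 1 1 - M 0 1 * M 1 0 = μ ^ 2 * ω := by rw [hμ, div_mul_cancel₀ _ hω0]
    have h2 : (M 0 0 + M 1 1) ^ 2 = (μ * (1 + ω)) ^ 2 :=
      mul_left_cancel₀ hω0 (by rw [ht, h1]; ring)
    rcases sq_eq_sq_iff_eq_or_eq_neg.1 h2 with h | h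
    · exact ⟨μ, h, h1⟩
    · exact ⟨-μ, by rw [h]; ring, by rw [h1]; ring⟩
  have hμ0 : μ ≠ 0 := by
    rintro rfl
    exact hd0 (by rw [hdet]; ring)
  have h0 : Sc X (N.val ^ j) ↔
      (∑ i ∈ Finset.range j, ω ^ i = 0 ∨ (M 0 1 = 0 ∧ M 1 0 = 0 ∧ M 0 0 - M 1 1 = 0)) := by
    rw [← scalar_pow_iff hμ0 htr hdet, Sc]
    simp only [X_dvd_iff, coeff_zero_eq_eval_zero, hMe, eval_sub]
  refine ⟨fun h => h0.2 (Or.inl h), fun hω1 h => (h0.1 h).resolve_right ?_⟩
  rintro ⟨h1, -, h3⟩
  rw [h1] at hdet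
  have : (μ * (ω - 1)) ^ 2 = 0 := by
    linear_combination (-(M 0 0 + M 1 1 + μ * (1 + ω))) * htr + 4 * hdet +
      (M 0 0 - M 1 1) * h3
  exact mul_ne_zero hμ0 (sub_ne_zero.mpr hω1) (pow_eq_zero_iff two_ne_zero |>.mp this)

theorem exists_order_fam {p : ℕ} [Fact p.Prime] [CharP k p] [IsAlgClosed k] {r : ℕ} {Γ : Type}
    (x₀ : Γ) (N : Γ → GL (Fin 2) k[X]) (hN : Shape r (N x₀).val) {a n' : ℕ}
    (hn : 2 ≤ p ^ a * n') {ω : k} (hω : IsPrimitiveRoot ω n')
    (ht : ∀ x, ω * ((N x).val 0 0 + (N x).val 1 1).eval 0 ^ 2 =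
      (1 + ω) ^ 2 * (N x).val.det.eval 0)
    (o : ℕ → ℕ) (ho : ∀ K j, o K ∣ j ↔ ∀ x, Sc (X ^ (K + 1)) ((N x).val ^ j)) :
    ∃ K, o K = p ^ a * n' := by
  have hp : p.Prime := Fact.out
  have hn0 : n' ≠ 0 := by rintro rfl; simp at hn
  have hb := fun x => order_base (N x) (hω.ne_zero hn0) (ht x)
  have h0 : ∀ j, o 0 ∣ j ↔ ∀ x, Sc X ((N x).val ^ j) := fun j => by simpa using ho 0 j
  obtain ⟨e, he⟩ : ∃ e, p ^ a * n' = o 0 * p ^ e := by
    by_cases h1 : n' = 1
    · subst h1
      have : ω = 1 := by simpa using hω.pow_eq_one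
      have h2 : o 0 ∣ p := (h0 p).mpr fun x => (hb x p).1 (by simp [this])
      rcases hp.eq_one_or_self_of_dvd _ h2 with h | h
      · exact ⟨a, by simp [h]⟩
      · rcases a with _ | a
        · simp at hn
        · exact ⟨a, by rw [h]; ring⟩
    · have hω1 : ω ≠ 1 := hω.ne_one (by omega)
      have h2 : ∀ j, o 0 ∣ j ↔ n' ∣ j := by
        intro j
        rw [h0, ← hω.pow_eq_one_iff_dvd, ← sub_eq_zero (a := ω ^ j), ← geom_sum_mul,
          mul_eq_zero, or_iff_left (sub_ne_zero.mpr hω1)]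
        exact ⟨fun h => (hb x₀ j).2 hω1 (h x₀), fun h x => (hb x j).1 h⟩
      exact ⟨a, by rw [Nat.dvd_antisymm ((h2 _).mpr dvd_rfl) ((h2 _).mp dvd_rfl), mul_comm]⟩
  refine seq_hit hp o (n := p ^ a * n') (e := e) (fun K => ?_) (fun K => ?_) (by omega) he ?_
  · refine (ho _ _).2 fun x => ?_
    have h := (ho (K + 1) _).1 dvd_rfl x
    have hd : (X : k[X]) ^ (K + 1) ∣ X ^ (K + 1 + 1) := pow_dvd_pow _ (by omega)
    exact ⟨hd.trans h.1, hd.trans h.2.1, hd.trans h.2.2⟩
  · refine (ho _ _).2 fun x => ?_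
    rw [mul_comm, pow_mul]
    exact ((ho K _).1 dvd_rfl x).step
  · obtain ⟨m, hm⟩ : ∃ m, p ^ a * n' = m + 1 := ⟨p ^ a * n' - 1, by omega⟩
    rw [hm]
    refine ⟨(m + 1) * r, fun h => ?_⟩
    have h1 := ((ho _ _).1 h x₀).2.2
    have hs := hN.pow m
    have h2 : (((N x₀).val ^ (m + 1)) 0 0 - ((N x₀).val ^ (m + 1)) 1 1).degree =
        ((m + 1) * r : ℕ) := by
      rw [degree_sub_eq_right_of_degree_lt, hs.2.2.2]
      rw [hs.2.2.2]; exact hs.1
    have h3 := degree_le_of_dvd h1 (by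
      intro h0; rw [h0, degree_zero] at h2; exact WithBot.bot_ne_coe h2)
    rw [h2, degree_pow, degree_X, nsmul_one] at h3
    have : (m + 1) * r + 1 ≤ (m + 1) * r := by exact_mod_cast h3
    omega

end Pool.Agent.P.MP_e9ee98_al
end

-- part Pool.Agent.P.MP_e9ee98_al.TwH
section

/-!
Semidirect products of projective linear groups with groups acting on the base ring.
-/

namespace Pool.Agent.P.MP_e9ee98_al

open Matrix
open scoped MatrixGroups

variable {Γ Γ' R S : Type} [Group Γ] [Group Γ'] [CommRing R] [CommRing S]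

lemma pmap_act (α : Γ →* (R →+* R)) (γ δ : Γ) (y : PGL(2, R)) :
    ProjGenLinGroup.map (α γ) (ProjGenLinGroup.map (α δ) y) = ProjGenLinGroup.map (α (γ * δ)) y := by
  rw [map_mul, RingHom.mul_def, ProjGenLinGroup.map_comp]; rfl

lemma pmap_one (α : Γ →* (R →+* R)) (y : PGL(2, R)) : ProjGenLinGroup.map (α 1) y = y := by
  rw [map_one, RingHom.one_def, ProjGenLinGroup.map_id]; rfl

/-- The action on `PGL₂` induced by an action on the ring. -/
noncomputable def pact (α : Γ →* (R →+* R)) : Γ →* MulAut PGL(2, R) where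
  toFun γ := MonoidHom.toMulEquiv (ProjGenLinGroup.map (α γ)) (ProjGenLinGroup.map (α γ⁻¹))
    (MonoidHom.ext fun y => by rw [MonoidHom.comp_apply, pmap_act, inv_mul_cancel, pmap_one]; rfl)
    (MonoidHom.ext fun y => by rw [MonoidHom.comp_apply, pmap_act, mul_inv_cancel, pmap_one]; rfl)
  map_one' := MulEquiv.ext (pmap_one α)
  map_mul' γ δ := MulEquiv.ext fun y => (pmap_act α γ δ y).symm

lemma pact_mk (α : Γ →* (R →+* R)) (γ : Γ) (g : GL (Fin 2) R) :
    pact α γ (ProjGenLinGroup.mk g) = ProjGenLinGroup.mk (GeneralLinearGroup.map (α γ) g) := rfl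

lemma pact_mul (α : Γ →* (R →+* R)) (γ δ : Γ) (y : PGL(2, R)) :
    pact α γ (pact α δ y) = pact α (γ * δ) y := pmap_act α γ δ y

/-- The semidirect product of `PGL₂` with the acting group. -/
abbrev SD (α : Γ →* (R →+* R)) : Type := PGL(2, R) ⋊[pact α] Γ

/-- Change of ring and of acting group. -/
noncomputable def sdMap {α : Γ →* (R →+* R)} {β : Γ' →* (S →+* S)} (f : R →+* S) (j : Γ →* Γ')
    (h : ∀ γ x, β (j γ) (f x) = f (α γ x)) : SD α →* SD β :=
  SemidirectProduct.map (ProjGenLinGroup.map f) j fun γ => MonoidHom.ext fun y => by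
    change ((ProjGenLinGroup.map f).comp (ProjGenLinGroup.map (α γ))) y =
      ((ProjGenLinGroup.map (β (j γ))).comp (ProjGenLinGroup.map f)) y
    rw [← ProjGenLinGroup.map_comp, ← ProjGenLinGroup.map_comp]
    congr 2
    exact RingHom.ext fun x => (h γ x).symm

lemma sdMap_eq_one {α : Γ →* (R →+* R)} {β : Γ' →* (S →+* S)} {f : R →+* S} {j : Γ →* Γ'}
    (h : ∀ γ x, β (j γ) (f x) = f (α γ x)) (hf : Function.Injective f)
    (hj : Function.Injective j) {y : SD α} (hy : sdMap f j h y = 1) : y = 1 := by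
  obtain ⟨y, γ⟩ := y
  obtain ⟨g, rfl⟩ := ProjGenLinGroup.mk_surjective y
  have h1 : ProjGenLinGroup.mk (GeneralLinearGroup.map f g) = 1 :=
    congrArg SemidirectProduct.left hy
  have h2 : j γ = 1 := congrArg SemidirectProduct.right hy
  rw [ProjGenLinGroup.mk_eq_one, mem_center_two] at h1
  refine SemidirectProduct.ext ?_ ((map_eq_one_iff j hj).1 h2)
  exact ProjGenLinGroup.mk_eq_one.2 ((mem_center_two g).2
    ⟨(map_eq_zero_iff f hf).1 h1.1, (map_eq_zero_iff f hf).1 h1.2.1, hf h1.2.2⟩)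

lemma exists_finite_sd {p : ℕ} [Fact p.Prime] [Algebra (ZMod p) R] [Algebra.IsIntegral (ZMod p) R]
    [Finite Γ] (α : Γ →* (R →+* R)) (s : Set (SD α)) (hs : s.Finite) :
    ∃ H : Subgroup (SD α), Finite H ∧ s ⊆ H := by
  obtain ⟨H, hH, h⟩ := exists_finite_subgroup (p := p)
    (⋃ γ, (fun y : SD α => pact α γ y.left) '' s) (Set.finite_iUnion fun γ => hs.image _)
  let P : Subgroup (SD α) :=
    { carrier := {y | ∀ γ, pact α γ y.left ∈ H}
      mul_mem' := fun {a b} ha hb γ => by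
        rw [SemidirectProduct.mul_left, map_mul, pact_mul]
        exact H.mul_mem (ha _) (hb _)
      one_mem' := fun γ => by simp
      inv_mem' := fun {a} ha γ => by
        rw [SemidirectProduct.inv_left, pact_mul, map_inv]
        exact H.inv_mem (ha _) }
  refine ⟨P, Finite.of_injective (fun y : P => ((⟨_, y.2 1⟩, y.1.right) : H × Γ)) ?_,
    fun y hy γ => h (Set.mem_iUnion.2 ⟨γ, y, hy, rfl⟩)⟩
  intro a b e
  exact Subtype.ext (SemidirectProduct.ext
    ((pact α 1).injective (congrArg (fun z : H × Γ => z.1.1) e)) (congrArg Prod.snd e))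

/-- The action on functions by right translation. -/
def perm (Γ A : Type) [Group Γ] [CommRing A] : Γ →* ((Γ → A) →+* (Γ → A)) where
  toFun γ := RingHom.pi fun x => Pi.evalRingHom _ (x * γ)
  map_one' := by ext f x; simp
  map_mul' γ δ := by ext f x; simp [mul_assoc]

open MvPolynomial

/-- Lower unipotent matrix with entry `X i`. -/
noncomputable def LZ (R : Type) [CommRing R] {σ : Type} (i : σ) : GL (Fin 2) (MvPolynomial σ R) :=
  ⟨!![1, 0; X i, 1], !![1, 0; -X i, 1], by simp [one_fin_two], by simp [one_fin_two]⟩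

lemma lz_ne [IsDomain R] {σ : Type} (A : GL (Fin 2) R) (i j : σ)
    (h : i = j → ProjGenLinGroup.mk A ≠ 1) :
    (LZ R i * GeneralLinearGroup.map C A * (LZ R j)⁻¹).val 1 0 ≠ 0 := by
  classical
  have e : (LZ R i * GeneralLinearGroup.map C A * (LZ R j)⁻¹).val 1 0 =
      X i * C (A 0 0) + C (A 1 0) - (X i * C (A 0 1) + C (A 1 1)) * X j := by
    change ((!![1, 0; X i, 1] * (GeneralLinearGroup.map C A).val * !![1, 0; -X j, 1] :
      Matrix (Fin 2) (Fin 2) (MvPolynomial σ R))) 1 0 = _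
    simp [Matrix.mul_apply, Fin.sum_univ_two, Matrix.vecMul, dotProduct]
    ring
  rw [e]
  intro h0
  by_cases hij : i = j
  · apply h hij
    have h1 := congrArg (aeval fun _ => (Polynomial.X : Polynomial R)) h0
    have c0 := congrArg (Polynomial.coeff · 0) h1
    have c1 := congrArg (Polynomial.coeff · 1) h1
    have c2 := congrArg (Polynomial.coeff · 2) h1
    simp [Polynomial.coeff_X, Polynomial.coeff_C] at c0 c1 c2
    exact ProjGenLinGroup.mk_eq_one.2 ((mem_center_two A).2 ⟨c2, c0, sub_eq_zero.1 c1⟩)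
  · have c0 := congrArg (eval 0) h0
    have c1 := congrArg (eval (Pi.single i 1)) h0
    simp [Ne.symm hij] at c0 c1
    have hd := (A.isUnit.map (Matrix.detMonoidHom (n := Fin 2) (R := R))).ne_zero
    rw [c0, add_zero] at c1
    apply hd
    simp [Matrix.det_fin_two, c0, c1]

lemma tw_LZ (α : Γ →* (R →+* R)) (γ δ : Γ) :
    GeneralLinearGroup.map (tw α γ) (LZ R δ) = LZ R (γ * δ) := by
  ext i j : 2
  fin_cases i <;> fin_cases j <;> simp [LZ]

lemma tw_UV (α : Γ →* (R →+* R)) (γ δ : Γ) (c : R) :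
    GeneralLinearGroup.map (tw α γ) (UV c δ) = UV (α γ c) (γ * δ) := by
  ext i j : 2
  fin_cases i <;> fin_cases j <;> simp [UV]

lemma tw_cst (α : Γ →* (R →+* R)) (γ : Γ) (A : GL (Fin 2) R) :
    GeneralLinearGroup.map (tw α γ) (GeneralLinearGroup.map C A) =
      GeneralLinearGroup.map C (GeneralLinearGroup.map (α γ) A) := by
  ext i j : 2
  simp

end Pool.Agent.P.MP_e9ee98_al
end

-- part Pool.Agent.P.MP_e9ee98_al.Main
section

namespace Pool.Agent.P.MP_e9ee98_al

open Polynomial Matrix Monoid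
open scoped MatrixGroups

variable {ι : Type} {G : ι → Type} [∀ i, Group (G i)]

lemma potent_conj {Γ : Type} [Group Γ] {x y : Γ} (h : IsConj x y) {n : ℕ}
    (hx : ∃ (H : Type) (_ : Group H) (_ : Finite H) (f : Γ →* H), orderOf (f x) = n) :
    ∃ (H : Type) (_ : Group H) (_ : Finite H) (f : Γ →* H), orderOf (f y) = n := by
  obtain ⟨H, _, _, f, hf⟩ := hx
  obtain ⟨c, hc⟩ := f.map_isConj h
  exact ⟨H, inferInstance, inferInstance, f, by rw [← hf]; exact (SemiconjBy.orderOf_eq _ hc).symm⟩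

theorem hyperbolic {p : ℕ} [Fact p.Prime] (hG : ∀ i, ResProj p (G i)) {L : List (Σ i, G i)}
    (hL : Cyc L) {n : ℕ} (hn : 2 ≤ n) :
    ∃ (H : Type) (_ : Group H) (_ : Finite H) (f : CoprodI G →* H), orderOf (f (ev L)) = n := by
  classical
  obtain ⟨l, L', rfl, -, h1, h2⟩ := hL
  set L := l :: L' with hLdef
  let k := AlgebraicClosure (ZMod p)
  -- representations of the factors
  let s : ∀ i, Finset (G i) := fun i => (L.toFinset.preimage (Sigma.mk i)
    (sigma_mk_injective.injOn))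
  have hs : ∀ i g, g ∈ s i ↔ (⟨i, g⟩ : Σ i, G i) ∈ L := fun i g => by simp [s]
  choose f0 hf0 hf0' using fun i => hG i (s i) fun h => h1 _ ((hs i 1).mp h) rfl
  let I : Finset ι := L.toFinset.image Sigma.fst
  let f : ∀ i, G i →* PGL(2, k) := fun i => if i ∈ I then f0 i else 1
  have hfL : ∀ m ∈ L, f m.1 m.2 ≠ 1 := fun m hm => by
    have : m.1 ∈ I := Finset.mem_image_of_mem _ (List.mem_toFinset.mpr hm)
    simp only [f, if_pos this]
    exact hf0' _ _ ((hs _ _).mpr hm)
  choose lf hlf using (ProjGenLinGroup.mk_surjective : Function.Surjective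
    (ProjGenLinGroup.mk : GL (Fin 2) k → PGL(2, k)))
  obtain ⟨h, hh⟩ := exists_conj (L.toFinset.image fun m : Σ i, G i => lf (f m.1 m.2)) (by
    intro A hA
    obtain ⟨m, hm, rfl⟩ := Finset.mem_image.mp hA
    rw [← ProjGenLinGroup.mk_eq_one, hlf]
    exact hfL m (List.mem_toFinset.mp hm))
  obtain ⟨lam, hlam⟩ : ∃ lam : ι → k, Set.InjOn lam I := by
    obtain ⟨e⟩ : Nonempty (I ↪ k) := by
      obtain ⟨e⟩ := nonempty_embedding_nat I
      exact ⟨e.trans (Infinite.natEmbedding k)⟩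
    refine ⟨fun i => if hi : i ∈ I then e ⟨i, hi⟩ else 0, fun i hi j hj hij => ?_⟩
    simp only [dif_pos (Finset.mem_coe.mp hi), dif_pos (Finset.mem_coe.mp hj)] at hij
    exact congrArg Subtype.val (e.injective hij)
  let φ : ∀ i, G i →* PGL(2, k[X]) := fun i =>
    ((MulAut.conj (ProjGenLinGroup.mk (UX (lam i) * cst h))).toMonoidHom.comp
      (ProjGenLinGroup.map C)).comp (f i)
  let ρ : CoprodI G →* PGL(2, k[X]) := CoprodI.lift φ
  let tr : (Σ i, G i) → k × GL (Fin 2) k := fun m => (lam m.1, h * lf (f m.1 m.2) * h⁻¹)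
  have hρ : ∀ L0 : List (Σ i, G i), ρ (ev L0) = ProjGenLinGroup.mk (wm (L0.map tr)) := by
    intro L0
    induction L0 with
    | nil => simp [wm]
    | cons m L0 ih =>
      have : wm ((m :: L0).map tr) = UX (lam m.1) * cst (h * lf (f m.1 m.2) * h⁻¹) *
          (UX (lam m.1))⁻¹ * wm (L0.map tr) := by simp [wm, tr]
      rw [ev_cons, map_mul, ih, this, map_mul]
      congr 1
      have e : ProjGenLinGroup.map C (f m.1 m.2) = ProjGenLinGroup.mk (cst (lf (f m.1 m.2))) := by
        conv_lhs => rw [← hlf (f m.1 m.2)]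
        rfl
      simp [ρ, φ, e, mul_assoc]
  have hsh := wm_shape (L'.map tr) (tr l) (tr l) (by
      intro m hm
      rw [← List.map_cons] at hm
      obtain ⟨m, hm', rfl⟩ := List.mem_map.mp hm
      exact hh _ (Finset.mem_image_of_mem _ (List.mem_toFinset.mpr hm')))
    (by
      have : tr l :: L'.map tr ++ [tr l] = (L ++ [l]).map tr := by simp [hLdef]
      rw [this, List.isChain_map]
      refine List.IsChain.imp_of_mem_imp ?_ h2
      intro a b ha hb hab e
      have hm : ∀ c ∈ L ++ [l], c.1 ∈ I := fun c hc =>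
        Finset.mem_image_of_mem _ (List.mem_toFinset.mpr (by
          rcases List.mem_append.mp hc with hc | hc
          · exact hc
          · rw [List.mem_singleton.mp hc]; simp [hLdef]))
      exact hab (hlam (hm a ha) (hm b hb) e))
  obtain ⟨t, K, hK⟩ := exists_order (p := p) (Nat.succ_pos _) _ hsh hn
  let R := AdjoinRoot ((X - C t) ^ K : k[X])
  have : Module.Finite k R := ((monic_X_sub_C t).pow K).finite_adjoinRoot
  have : Algebra.IsIntegral (ZMod p) R := Algebra.IsIntegral.trans k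
  obtain ⟨H, hH, hS⟩ := exists_finite_subgroup (p := p)
    (⋃ i ∈ I, Set.range fun g => red ((X - C t) ^ K) (φ i g)) (by
      refine I.finite_toSet.biUnion fun i hi => ?_
      have : Finite (f i).range := by
        simp only [f, if_pos (Finset.mem_coe.mp hi)]; exact hf0 i
      have h3 : (Set.range (f i)).Finite := Set.toFinite ((f i).range : Set PGL(2, k))
      exact (h3.image fun y => red ((X - C t) ^ K)
        (((MulAut.conj (ProjGenLinGroup.mk (UX (lam i) * cst h))).toMonoidHom.comp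
          (ProjGenLinGroup.map C)) y)).subset (by
        rintro _ ⟨g, rfl⟩; exact ⟨_, ⟨g, rfl⟩, rfl⟩))
  have hmem : ∀ x, ((red ((X - C t) ^ K)).comp ρ) x ∈ H := by
    intro x
    induction x using CoprodI.induction_left with
    | one => simp
    | @mul i g x ih =>
      rw [map_mul]
      refine H.mul_mem ?_ ih
      by_cases hi : i ∈ I
      · exact hS (Set.mem_biUnion hi ⟨g, by simp [ρ]⟩)
      · simp [ρ, φ, f, hi]
  refine ⟨H, inferInstance, hH, ((red ((X - C t) ^ K)).comp ρ).codRestrict H hmem, ?_⟩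
  rw [← Subgroup.orderOf_coe, ← hK]
  simp only [MonoidHom.codRestrict_apply, MonoidHom.comp_apply, hρ, hLdef, List.map_cons, map_mul,
    map_inv]
  refine SemiconjBy.orderOf_eq
    (red ((X - C t) ^ K) (ProjGenLinGroup.mk (UX (tr l).1)))⁻¹ ?_
  simp [SemiconjBy]

theorem potent_coprodI {p : ℕ} [Fact p.Prime] (h1 : ∀ i, Potent (G i))
    (h2 : ∀ i, ResProj p (G i)) : Potent (CoprodI G) := by
  classical
  intro x n hn hx
  rcases Nat.eq_or_lt_of_le hn with rfl | hn2
  · exact ⟨PUnit, inferInstance, inferInstance, 1, by simp⟩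
  obtain ⟨L, hL, h⟩ := exists_cyc x
  refine potent_conj hL ?_
  obtain ⟨c, hc⟩ := hL
  rw [← SemiconjBy.orderOf_eq _ hc] at hx
  rcases h with rfl | ⟨⟨i, g⟩, rfl⟩ | h
  · simp at hx; omega
  · simp only [ev_cons, ev_nil, mul_one] at hx ⊢
    rw [orderOf_injective CoprodI.of (CoprodI.of_injective i)] at hx
    obtain ⟨H, _, _, f, hf⟩ := h1 i g n hn hx
    exact ⟨H, inferInstance, inferInstance,
      CoprodI.lift (Function.update (fun _ => 1) i f), by simpa using hf⟩
  · exact hyperbolic h2 h hn2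

end Pool.Agent.P.MP_e9ee98_al
end

-- part Pool.Agent.P.MP_e9ee98_al.TwI
section

/-!
Cyclically reduced words under twisted representations of the factors.
-/

namespace Pool.Agent.P.MP_e9ee98_al

open Matrix Monoid MvPolynomial
open scoped MatrixGroups

variable {ι : Type} {G : ι → Type} [∀ i, Group (G i)]

lemma finite_image {Y : Type} [Group Y] (ρ : CoprodI G →* Y) (H : Subgroup Y) [Finite H]
    (h : ∀ i (g : G i), ρ (CoprodI.of g) ∈ H) (x : CoprodI G) :
    ∃ (H : Type) (_ : Group H) (_ : Finite H) (f : CoprodI G →* H),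
      orderOf (f x) = orderOf (ρ x) := by
  have hmem : ∀ x, ρ x ∈ H := by
    intro x
    induction x using CoprodI.induction_left with
    | one => simp
    | @mul i g x ih => rw [map_mul]; exact H.mul_mem (h i g) ih
  exact ⟨H, inferInstance, inferInstance, ρ.codRestrict H hmem, (Subgroup.orderOf_coe _).symm⟩

section
variable {k R Γ : Type} [Field k] [CommRing R] [Algebra k R] [Group Γ] {α : Γ →* (R →+* R)}

lemma tw_alg (hα : ∀ γ c, α γ (algebraMap k R c) = algebraMap k R c) (γ : Γ) (c : k) :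
    tw α γ (algebraMap k _ c) = algebraMap k _ c := by
  rw [MvPolynomial.algebraMap_apply, tw_C, hα]

/-- The representation of a factor, conjugated into general position. -/
noncomputable def gen (α : Γ →* (R →+* R)) (c : MvPolynomial Γ R) : SD α →* SD (tw (tw α)) :=
  (MulAut.conj (SemidirectProduct.inl (ProjGenLinGroup.mk
    (UV c 1 * GeneralLinearGroup.map C (LZ R 1))))).toMonoidHom.comp
      (sdMap (C.comp C) (MonoidHom.id Γ) fun γ x => by simp)

lemma gen_right (c : MvPolynomial Γ R) (y : SD α) : (gen α c y).right = y.right := by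
  simp [gen, sdMap]

lemma gen_left {c : MvPolynomial Γ R} (hc : ∀ γ, tw α γ c = c) (y : SD α) (A : GL (Fin 2) R)
    (hA : ProjGenLinGroup.mk A = y.left) (γ : Γ) :
    pact (tw (tw α)) γ (gen α c y).left = ProjGenLinGroup.mk (UV c γ *
      GeneralLinearGroup.map C (LZ R γ * GeneralLinearGroup.map C (GeneralLinearGroup.map (α γ) A) *
        (LZ R (γ * y.right))⁻¹) * (UV c (γ * y.right))⁻¹) := by
  have e : ∀ γ, pact (tw (tw α)) γ (ProjGenLinGroup.mk (UV c 1 *
      GeneralLinearGroup.map C (LZ R 1))) =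
      ProjGenLinGroup.mk (UV c γ * GeneralLinearGroup.map C (LZ R γ)) := fun γ => by
    rw [pact_mk, map_mul, tw_UV, tw_cst, tw_LZ, hc, mul_one]
  have e2 : (gen α c y).left = ProjGenLinGroup.mk (UV c 1 * GeneralLinearGroup.map C (LZ R 1)) *
      ProjGenLinGroup.mk (GeneralLinearGroup.map C (GeneralLinearGroup.map C A)) *
      (pact (tw (tw α)) y.right (ProjGenLinGroup.mk (UV c 1 *
        GeneralLinearGroup.map C (LZ R 1))))⁻¹ := by
    simp [gen, sdMap, ← hA, mul_assoc]
  rw [e2, map_mul, map_mul, map_inv, pact_mul, e, e, pact_mk, tw_cst, tw_cst]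
  simp [mul_assoc]

end

theorem core {p q : ℕ} [Fact p.Prime] [Fact q.Prime] {k : Type} [Field k] [CharP k p]
    [IsAlgClosed k] [Algebra (ZMod p) k] [Algebra.IsIntegral (ZMod p) k] {R : Type} [CommRing R]
    [IsDomain R] [Algebra k R] [Algebra.FiniteType k R] {Γ : Type} [Group Γ] [Finite Γ]
    (hΓ : IsPGroup q Γ) (α : Γ →* (R →+* R))
    (hα : ∀ γ c, α γ (algebraMap k R c) = algebraMap k R c) (ψ : ∀ i, G i →* SD α) (I : Finset ι)
    (hI : ∀ i ∉ I, ψ i = 1) (hfin : ∀ i, (Set.range (ψ i)).Finite) {L : List (Σ i, G i)}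
    (hL : Cyc L) (h1 : ∀ m ∈ L, ψ m.1 m.2 ≠ 1) (hq : ¬ q ∣ L.length + L.length)
    (hπ : (L.map fun m => (ψ m.1 m.2).right).prod = 1) {n : ℕ} (hn : 2 ≤ n) :
    ∃ (H : Type) (_ : Group H) (_ : Finite H) (f : CoprodI G →* H), orderOf (f (ev L)) = n := by
  classical
  have hp : p.Prime := Fact.out
  obtain ⟨a, n', hn', rfl⟩ := Nat.exists_eq_pow_mul_and_not_dvd (n := n) (by omega) p hp.ne_one
  have : NeZero (n' : k) := ⟨fun h => hn' ((CharP.cast_eq_zero_iff k p n').mp h)⟩
  have : NeZero n' := NeZero.of_neZero_natCast k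
  obtain ⟨ω, hω⟩ := HasEnoughRootsOfUnity.exists_primitiveRoot k n'
  obtain ⟨l, L', rfl, -, -, h2⟩ := hL
  let D := MvPolynomial Γ R
  let τ := tw (tw α)
  have hinj : Function.Injective (algebraMap k D) := (algebraMap k D).injective
  obtain ⟨lam, hlam⟩ : ∃ lam : ι → k, Set.InjOn lam I := by
    obtain ⟨e⟩ : Nonempty (I ↪ k) := by
      obtain ⟨e⟩ := nonempty_embedding_nat I
      exact ⟨e.trans (Infinite.natEmbedding k)⟩
    refine ⟨fun i => if hi : i ∈ I then e ⟨i, hi⟩ else 0, fun i hi j hj hij => ?_⟩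
    simp only [dif_pos (Finset.mem_coe.mp hi), dif_pos (Finset.mem_coe.mp hj)] at hij
    exact congrArg Subtype.val (e.injective hij)
  choose lf hlf using (ProjGenLinGroup.mk_surjective : Function.Surjective
    (ProjGenLinGroup.mk : GL (Fin 2) R → PGL(2, R)))
  let ρ : CoprodI G →* SD τ := CoprodI.lift fun i => (gen α (algebraMap k D (lam i))).comp (ψ i)
  let la : (Σ i, G i) → D := fun m => algebraMap k D (lam m.1)
  let π : (Σ i, G i) → Γ := fun m => (ψ m.1 m.2).right
  let B : Γ → (Σ i, G i) → GL (Fin 2) D := fun γ m => LZ R γ *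
    GeneralLinearGroup.map C (GeneralLinearGroup.map (α γ) (lf (ψ m.1 m.2).left)) *
      (LZ R (γ * π m))⁻¹
  have hρ : ∀ (L0 : List (Σ i, G i)) γ, pact τ γ (ρ (ev L0)).left =
      ProjGenLinGroup.mk (tm la B π γ L0) ∧ (ρ (ev L0)).right = (L0.map π).prod := by
    intro L0
    induction L0 with
    | nil => intro γ; simp [tm]
    | cons m L0 ih =>
      intro γ
      have e : ρ (CoprodI.of m.2) = gen α (la m) (ψ m.1 m.2) := by simp [ρ, la]
      rw [ev_cons, map_mul, SemidirectProduct.mul_left, SemidirectProduct.mul_right, map_mul,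
        pact_mul, e, gen_right, gen_left (fun γ => tw_alg hα γ _) _ _ (hlf _), (ih _).1, (ih 1).2,
        tm, ← map_mul]
      exact ⟨rfl, rfl⟩
  have hmem : ∀ m ∈ l :: L', m.1 ∈ I := fun m hm => by
    by_contra h
    exact h1 m hm (by rw [hI _ h]; rfl)
  obtain ⟨e, c, hc, hN⟩ := tm_shape la B π L' l l 1 (fun m hm γ => lz_ne _ _ _ fun h h0 => by
      refine h1 m hm (SemidirectProduct.ext ?_ (left_eq_mul.1 h))
      rw [← pact_mk, hlf] at h0
      exact (map_eq_one_iff _ (pact α γ).injective).1 h0) (by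
      refine List.IsChain.imp_of_mem_imp ?_ h2
      intro a b ha hb hab e
      have hm : ∀ c ∈ l :: L' ++ [l], c.1 ∈ I := fun c hc => hmem c (by
        rcases List.mem_append.mp hc with hc | hc
        · exact hc
        · rw [List.mem_singleton.mp hc]; simp)
      exact hab (hlam (hm a ha) (hm b hb) (hinj e)))
  rw [hπ, mul_one] at hN
  set N := (UV (la l) 1)⁻¹ * tm la B π 1 (l :: L') * UV (la l) (1 : Γ) with hNdef
  have hdet : N.val.det.totalDegree = 0 := (isUnit_iff_totalDegree_of_isReduced.1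
    (N.isUnit.map (Matrix.detMonoidHom (n := Fin 2) (R := MvPolynomial Γ D)))).2
  obtain ⟨v, hv, hv'⟩ := exists_point (k := k) hΓ (tw α) hq _
    (mul_ne_zero ((map_ne_zero _).2 (hω.ne_zero (NeZero.ne n'))) (mul_ne_zero hc hc))
    (hN.sum hN) (hN.trace hdet (algebraMap k D ω) (algebraMap k D ((1 + ω) ^ 2)))
  let θ : MvPolynomial Γ D →+* Polynomial k := eval₂Hom (Polynomial.C.comp (v.toRingHom.comp C))
    fun δ => Polynomial.X + Polynomial.C (v (X δ))
  have hθ : ∀ f, (θ f).eval 0 = v f := fun f => by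
    have : (Polynomial.evalRingHom 0).comp θ = v.toRingHom :=
      ringHom_ext (fun c => by simp [θ]) fun δ => by simp [θ]
    exact RingHom.congr_fun this f
  let Θ : ∀ K : ℕ, MvPolynomial Γ D →+* (Γ → AdjoinRoot (Polynomial.X ^ (K + 1) : Polynomial k)) :=
    fun K => RingHom.pi fun x => (AdjoinRoot.mk _).comp (θ.comp (τ x))
  obtain ⟨K, hK⟩ := exists_order_fam (p := p) (1 : Γ)
    (fun x => GeneralLinearGroup.map (θ.comp (τ x)) N)
    (MS.shape (θ.comp (τ 1)) (v.toRingHom.comp C) (fun δ => v (X δ)) (fun c => by simp [θ])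
      (fun δ => by simp [θ]) hN fun h => hv' 1 (by
        rw [act_one, map_mul, map_mul, map_mul, map_mul]
        exact mul_eq_zero_of_right _ (mul_eq_zero_of_left h _))) hn hω
    (fun x => by
      have h := hv x
      have e : ∀ c : k, v (τ x (C (algebraMap k D c))) = c := fun c => by
        rw [tw_C, tw_alg hα, ← MvPolynomial.algebraMap_apply, AlgHom.commutes]; rfl
      rw [map_sub, map_sub, map_mul, map_mul, map_mul, map_mul, e, e, map_pow, map_pow,
        sub_eq_zero, ← hθ, ← hθ, map_add, map_add] at h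
      exact h.trans (congrArg (fun z => (1 + ω) ^ 2 * Polynomial.eval 0 z)
        ((θ.comp (τ x)).map_det N.val)))
    (fun K => orderOf (ProjGenLinGroup.mk (GeneralLinearGroup.map (Θ K) N))) fun K j => by
      rw [orderOf_dvd_iff_pow_eq_one, ← map_pow, ← map_pow, ProjGenLinGroup.mk_eq_one,
        mem_center_two]
      simp only [Sc, ← Units.val_pow_eq_pow_val, ← map_pow, ← AdjoinRoot.mk_eq_zero, map_sub,
        sub_eq_zero, _root_.funext_iff, forall_and]
      rfl
  let A := AdjoinRoot (Polynomial.X ^ (K + 1) : Polynomial k)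
  have : Module.Finite k A := (Polynomial.monic_X.pow _).finite_adjoinRoot
  have : Algebra.IsIntegral (ZMod p) (Γ → A) := Algebra.IsIntegral.trans k
  let σ : SD τ →* SD (perm Γ A) := sdMap (Θ K) (MonoidHom.id Γ) fun γ f =>
    _root_.funext fun x => congrArg (fun z => AdjoinRoot.mk _ (θ z)) (act_mul τ x γ f).symm
  let ρ' := σ.comp ρ
  obtain ⟨H, hH, hS⟩ := exists_finite_sd (p := p) (perm Γ A)
    (⋃ i ∈ I, Set.range fun g : G i => ρ' (CoprodI.of g)) (by
      refine I.finite_toSet.biUnion fun i _ => ?_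
      refine ((hfin i).image fun y => σ (gen α (algebraMap k D (lam i)) y)).subset ?_
      rintro _ ⟨g, rfl⟩
      exact ⟨_, ⟨g, rfl⟩, by simp [ρ', ρ]⟩)
  obtain ⟨H', _, _, f, hf⟩ := finite_image ρ' H (fun i g => by
    by_cases hi : i ∈ I
    · exact hS (Set.mem_biUnion hi ⟨g, rfl⟩)
    · simp [ρ', ρ, hI i hi]) (ev (l :: L'))
  refine ⟨H', inferInstance, inferInstance, f, ?_⟩
  have e1 : ρ' (ev (l :: L')) = SemidirectProduct.inl
      (ProjGenLinGroup.mk (GeneralLinearGroup.map (Θ K) (tm la B π 1 (l :: L')))) := by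
    refine SemidirectProduct.ext ?_ ((hρ _ 1).2.trans hπ)
    have h := (hρ (l :: L') 1).1
    rw [map_one, MulAut.one_apply] at h
    exact congrArg (ProjGenLinGroup.map (Θ K)) h
  rw [hf, e1, orderOf_injective _ SemidirectProduct.inl_injective, ← hK, hNdef]
  simp only [map_mul, map_inv]
  refine SemiconjBy.orderOf_eq
    (ProjGenLinGroup.mk (GeneralLinearGroup.map (Θ K) (UV (la l) 1)))⁻¹ ?_
  simp [SemiconjBy]

end Pool.Agent.P.MP_e9ee98_al
end
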